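import Mathlib

namespace Pool.Agent.H397R2

open Real

/-- For irrational `α > 0`, every nonempty open interval contains some `j - t α` with `j, t ∈ ℕ`. -/
theorem exists_nat_sub_mul {α : ℝ} (hα : 0 < α) (hirr : Irrational α) {u v : ℝ} (huv : u < v) :
    ∃ j t : ℕ, u < (j : ℝ) - t * α ∧ (j : ℝ) - t * α < v := by
  have hd : Dense (AddSubgroup.closure {α, (1 : ℝ)} : Set ℝ) := by
    rw [dense_addSubgroupClosure_pair_iff]; simpa using hirr
  obtain ⟨w, hw, hw0, hw1⟩ := hd.exists_between (show (0 : ℝ) < min (v - u) 1 by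
    rw [lt_min_iff]; exact ⟨by linarith, by norm_num⟩)
  rw [lt_min_iff] at hw1
  obtain ⟨hw1, hw2⟩ := hw1
  rw [SetLike.mem_coe, AddSubgroup.mem_closure_pair] at hw
  obtain ⟨m, n, hmn⟩ := hw
  simp only [zsmul_eq_mul, mul_one] at hmn
  rcases le_or_gt m 0 with hm | hm
  · -- `w = n - (-m) α`
    have hm' : (m : ℝ) ≤ 0 := by exact_mod_cast hm
    have hn : (0 : ℝ) < n := by nlinarith
    have hn' : 0 < n := by exact_mod_cast hn
    obtain ⟨j1, rfl⟩ : ∃ j1 : ℕ, n = j1 := ⟨n.toNat, by omega⟩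
    obtain ⟨t1, ht1⟩ : ∃ t1 : ℕ, m = -(t1 : ℤ) := ⟨(-m).toNat, by omega⟩
    subst ht1
    obtain ⟨T, hT⟩ := exists_nat_gt (-u / α)
    have hT' : 0 < u + T * α := by
      rw [div_lt_iff₀ hα] at hT; linarith
    set s : ℕ := ⌊(u + T * α) / w⌋₊ + 1 with hs
    have h1 : (u + T * α) / w < s := by
      rw [hs]; push_cast; exact Nat.lt_floor_add_one _
    have h2 : (s : ℝ) - 1 ≤ (u + T * α) / w := by
      rw [hs]; push_cast
      have := Nat.floor_le (show 0 ≤ (u + T * α) / w by positivity)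
      linarith
    rw [div_lt_iff₀ hw0] at h1
    rw [le_div_iff₀ hw0] at h2
    refine ⟨s * j1, T + s * t1, ?_, ?_⟩
    · push_cast at hmn ⊢
      have : (s : ℝ) * w = s * j1 - s * t1 * α := by rw [← hmn]; ring
      nlinarith
    · push_cast at hmn ⊢
      have : (s : ℝ) * w = s * j1 - s * t1 * α := by rw [← hmn]; ring
      nlinarith
  · have hm' : (0 : ℝ) < m := by exact_mod_cast hm
    have hn : (n : ℝ) < 1 := by nlinarith
    have hn' : n < 1 := by exact_mod_cast hn
    obtain ⟨t1, rfl⟩ : ∃ t1 : ℕ, m = t1 := ⟨m.toNat, by omega⟩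
    obtain ⟨j1, hj1⟩ : ∃ j1 : ℕ, n = -(j1 : ℤ) := ⟨(-n).toNat, by omega⟩
    subst hj1
    obtain ⟨J, hJ⟩ := exists_nat_gt v
    set s : ℕ := ⌊(J - v) / w⌋₊ + 1 with hs
    have hJ' : 0 < (J : ℝ) - v := by linarith
    have h1 : ((J : ℝ) - v) / w < s := by
      rw [hs]; push_cast; exact Nat.lt_floor_add_one _
    have h2 : (s : ℝ) - 1 ≤ ((J : ℝ) - v) / w := by
      rw [hs]; push_cast
      have := Nat.floor_le (show 0 ≤ ((J : ℝ) - v) / w by positivity)
      linarith
    rw [div_lt_iff₀ hw0] at h1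
    rw [le_div_iff₀ hw0] at h2
    refine ⟨J + s * j1, s * t1, ?_, ?_⟩
    · push_cast at hmn ⊢
      have : (s : ℝ) * w = s * t1 * α - s * j1 := by rw [← hmn]; ring
      nlinarith
    · push_cast at hmn ⊢
      have : (s : ℝ) * w = s * t1 * α - s * j1 := by rw [← hmn]; ring
      nlinarith

theorem irrational_log_div {K : ℕ} (hK : 2 ≤ K) (h : ∀ a b : ℕ, 1 ≤ a → K ^ a ≠ 2 ^ b) :
    Irrational (Real.log K / Real.log 2) := by
  rintro ⟨q, hq⟩
  have hl2 : 0 < Real.log 2 := Real.log_pos (by norm_num)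
  have hlK : 0 < Real.log K := Real.log_pos (by exact_mod_cast (by omega : 1 < K))
  have hq0 : (0 : ℝ) < q := by rw [hq]; positivity
  have hq0' : 0 < q := by exact_mod_cast hq0
  have hnum : 0 < q.num := Rat.num_pos.mpr hq0'
  obtain ⟨b, hb⟩ : ∃ b : ℕ, q.num = b := ⟨q.num.toNat, by omega⟩
  have h1 : (q.den : ℝ) * Real.log K = b * Real.log 2 := by
    have h2 : (q : ℝ) = (b : ℝ) / q.den := by
      rw [Rat.cast_def, hb]; push_cast; rfl
    have hden : (q.den : ℝ) ≠ 0 := by exact_mod_cast q.den_ne_zero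
    rw [h2, div_eq_div_iff hden hl2.ne'] at hq
    linarith
  have h3 : Real.log ((K : ℝ) ^ q.den) = Real.log ((2 : ℝ) ^ b) := by
    rw [Real.log_pow, Real.log_pow, h1]
  have h4 : (K : ℝ) ^ q.den = (2 : ℝ) ^ b := by
    apply Real.log_injOn_pos _ _ h3
    · exact Set.mem_Ioi.mpr (pow_pos (by exact_mod_cast (by omega : 0 < K)) _)
    · exact Set.mem_Ioi.mpr (by positivity)
  exact h q.den b q.den_pos (by exact_mod_cast h4)

/-- If `K ≥ 2` is not multiplicatively dependent on `2`, the numbers `2^j / K^t` are dense in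
the positive reals. -/
theorem exists_pow_between {K : ℕ} (hK : 2 ≤ K) (h : ∀ a b : ℕ, 1 ≤ a → K ^ a ≠ 2 ^ b)
    {x y : ℝ} (hx : 0 < x) (hxy : x < y) :
    ∃ j t : ℕ, x * (K : ℝ) ^ t < 2 ^ j ∧ (2 : ℝ) ^ j < y * (K : ℝ) ^ t := by
  have hl2 : 0 < Real.log 2 := Real.log_pos (by norm_num)
  have hlK : 0 < Real.log K := Real.log_pos (by exact_mod_cast (by omega : 1 < K))
  have hKpos : (0 : ℝ) < K := by exact_mod_cast (by omega : 0 < K)
  have hy : 0 < y := hx.trans hxy
  obtain ⟨j, t, h1, h2⟩ := exists_nat_sub_mul (div_pos hlK hl2) (irrational_log_div hK h)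
    (show Real.log x / Real.log 2 < Real.log y / Real.log 2 by
      exact (div_lt_div_iff_of_pos_right hl2).mpr (Real.log_lt_log hx hxy))
  have e : ((j : ℝ) - t * (Real.log K / Real.log 2)) =
      (j * Real.log 2 - t * Real.log K) / Real.log 2 := by
    field_simp
  rw [e, div_lt_div_iff_of_pos_right hl2] at h1 h2
  refine ⟨j, t, ?_, ?_⟩
  · rw [← Real.log_lt_log_iff (by positivity) (by positivity),
      Real.log_mul hx.ne' (by positivity), Real.log_pow, Real.log_pow]
    linarith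
  · rw [← Real.log_lt_log_iff (by positivity) (by positivity),
      Real.log_mul hy.ne' (by positivity), Real.log_pow, Real.log_pow]
    linarith

end Pool.Agent.H397R2
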