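import Mathlib
import Pool.Agent.Helper605.CPc
import Pool.Agent.H397R2.LogDense

namespace Pool.Agent.H397R2

open Pool.Agent.Helper605.CP Filter Topology

variable {α : Type*}

/-- `c` is constant along the trajectories of the accelerated Collatz map
`2n ↦ n`, `2n+1 ↦ 3n+2`. -/
structure CInv (c : ℕ → α) : Prop where
  even : ∀ n, c (2 * n) = c n
  odd : ∀ n, c (3 * n + 2) = c (2 * n + 1)

lemma CInv.st1 {c : ℕ → α} (h : CInv c) (a p : ℕ) : c (st1 0 (a, p)).2 = c p := by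
  simp only [Pool.Agent.Helper605.CP.st1, mul_zero, zero_add]
  by_cases hp : p % 2 = 0
  · rw [if_pos hp]
    obtain ⟨n, rfl⟩ : ∃ n, p = 2 * n := ⟨p / 2, by omega⟩
    rw [h.even]
    congr 1
    omega
  · rw [if_neg hp]
    obtain ⟨n, rfl⟩ : ∃ n, p = 2 * n + 1 := ⟨p / 2, by omega⟩
    rw [← h.odd]
    congr 1
    simp only
    omega

lemma CInv.orb {c : ℕ → α} (h : CInv c) (m n : ℕ) : c (orb m n).2 = c n := by
  induction m with
  | zero => rfl
  | succ m ih =>
    rw [orb_succ, ← ih]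
    generalize Pool.Agent.Helper605.CP.orb m n = s
    obtain ⟨a, p⟩ := s
    exact h.st1 a p

lemma CInv.pow {c : ℕ → α} (h : CInv c) (j n : ℕ) : c (2 ^ j * n) = c n := by
  induction j with
  | zero => simp
  | succ j ih => rw [pow_succ', mul_assoc, h.even, ih]

/-- density zero -/
def ZD (S : Set ℕ) : Prop :=
  ∀ ε : ℝ, 0 < ε → ∃ N0 : ℕ, ∀ N : ℕ, N0 ≤ N → ((S ∩ Set.Icc 1 N).ncard : ℝ) ≤ ε * N

lemma ZD_of_density_one {A : Set ℕ}
    (h : Tendsto (fun N : ℕ => ((A ∩ Set.Icc 1 N).ncard : ℝ) / N) atTop (𝓝 1)) : ZD Aᶜ := by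
  intro ε hε
  have h1 := (h.eventually (lt_mem_nhds (show (1 - ε : ℝ) < 1 by linarith))).and
    (eventually_ge_atTop 1)
  obtain ⟨N0, hN0⟩ := h1.exists_forall_of_atTop
  refine ⟨N0, fun N hN => ?_⟩
  obtain ⟨h2, h3⟩ := hN0 N hN
  have hNpos : (0 : ℝ) < N := by exact_mod_cast h3
  rw [lt_div_iff₀ hNpos] at h2
  have h4 : (A ∩ Set.Icc 1 N).ncard + (Aᶜ ∩ Set.Icc 1 N).ncard = N := by
    have hfin : (Set.Icc 1 N).Finite := Set.finite_Icc 1 N
    have := Set.ncard_inter_add_ncard_sdiff_eq_ncard (Set.Icc 1 N) A hfin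
    have h5 : (Set.Icc 1 N).ncard = N := by
      rw [← Finset.coe_Icc, Set.ncard_coe_finset, Nat.card_Icc]; omega
    rw [h5] at this
    rw [Set.inter_comm A, show Aᶜ ∩ Set.Icc 1 N = Set.Icc 1 N \ A by
      ext x; simp [and_comm]]
    exact this
  have h5 : ((A ∩ Set.Icc 1 N).ncard : ℝ) + ((Aᶜ ∩ Set.Icc 1 N).ncard : ℝ) = N := by
    exact_mod_cast h4
  linarith

lemma CInv.zd {c : ℕ → α} (h : CInv c) : ZD {n | c n ≠ c (n + 1)} := by
  have h1 : Tendsto (fun N : ℕ => (({n | c n = c (n + 1)} ∩ Set.Icc 1 N).ncard : ℝ) / N)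
      atTop (𝓝 1) := by
    refine density_one _ (fun m _ => ⟨0, fun n _ hn => ?_⟩)
    have e1 := h.orb m n
    have e2 := h.orb m (n + 1)
    show c n = c (n + 1)
    rw [← e1, ← e2, hn]
  exact ZD_of_density_one h1

/-- The positive integers are not covered by finitely many affine preimages of a density zero
set. -/
lemma not_cover {D : Set ℕ} (hD : ZD D) {ι : Type*} [Fintype ι] (a b : ι → ℕ)
    (ha : ∀ i, 1 ≤ a i) : ¬ ∀ m : ℕ, 1 ≤ m → ∃ i, a i * m + b i ∈ D := by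
  classical
  intro hcov
  set C : ℕ := ∑ i, (a i + b i) with hC
  obtain ⟨N0, hN0⟩ := hD (1 / (2 * (C + 1))) (by positivity)
  set N := N0 + 1 with hN
  have hsub : Set.Icc 1 N ⊆ ⋃ i, {m | m ∈ Set.Icc 1 N ∧ a i * m + b i ∈ D} := by
    intro m hm
    obtain ⟨i, hi⟩ := hcov m hm.1
    exact Set.mem_iUnion.mpr ⟨i, hm, hi⟩
  have hcard : ∀ i, ({m | m ∈ Set.Icc 1 N ∧ a i * m + b i ∈ D}.ncard : ℝ) ≤
      1 / (2 * (C + 1)) * ((a i + b i) * N) := by
    intro i
    have h1 : ({m | m ∈ Set.Icc 1 N ∧ a i * m + b i ∈ D}).ncard ≤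
        (D ∩ Set.Icc 1 (a i * N + b i)).ncard := by
      apply Set.ncard_le_ncard_of_injOn (fun m => a i * m + b i)
      · rintro m ⟨hm, hmD⟩
        refine ⟨hmD, ?_, ?_⟩
        · have := ha i
          have := hm.1
          show 1 ≤ a i * m + b i
          nlinarith
        · have := hm.2
          show a i * m + b i ≤ a i * N + b i
          have := Nat.mul_le_mul_left (a i) this
          omega
      · intro x _ y _ hxy
        have := ha i
        have h2 : a i * x = a i * y := by simpa using hxy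
        exact Nat.eq_of_mul_eq_mul_left (by omega) h2
    have h2 := hN0 (a i * N + b i) (by
      have := ha i
      nlinarith)
    have h3 : ((a i * N + b i : ℕ) : ℝ) ≤ (a i + b i) * N := by
      have : a i * N + b i ≤ (a i + b i) * N := by
        have : 1 ≤ N := by omega
        nlinarith
      exact_mod_cast this
    calc (({m | m ∈ Set.Icc 1 N ∧ a i * m + b i ∈ D}).ncard : ℝ) ≤
        ((D ∩ Set.Icc 1 (a i * N + b i)).ncard : ℝ) := by exact_mod_cast h1
      _ ≤ 1 / (2 * (C + 1)) * ((a i * N + b i : ℕ) : ℝ) := h2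
      _ ≤ _ := by
        apply mul_le_mul_of_nonneg_left h3; positivity
  have h5 : (Set.Icc 1 N).ncard = N := by
    rw [← Finset.coe_Icc, Set.ncard_coe_finset, Nat.card_Icc]; omega
  have h6 : (Set.Icc 1 N).ncard ≤ ∑ i, ({m | m ∈ Set.Icc 1 N ∧ a i * m + b i ∈ D}).ncard := by
    refine (Set.ncard_le_ncard hsub ?_).trans ?_
    · apply Set.finite_iUnion
      intro i
      exact (Set.finite_Icc 1 N).subset (fun x hx => hx.1)
    · exact Set.ncard_iUnion_le_of_fintype _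
  have h7 : (N : ℝ) ≤ ∑ i, 1 / (2 * ((C : ℝ) + 1)) * (((a i : ℝ) + b i) * N) := by
    calc (N : ℝ) = ((Set.Icc 1 N).ncard : ℝ) := by rw [h5]
      _ ≤ ∑ i, (({m | m ∈ Set.Icc 1 N ∧ a i * m + b i ∈ D}).ncard : ℝ) := by exact_mod_cast h6
      _ ≤ _ := Finset.sum_le_sum (fun i _ => hcard i)
  rw [← Finset.mul_sum, ← Finset.sum_mul] at h7
  have h8 : (∑ i, ((a i : ℝ) + b i)) = C := by rw [hC]; push_cast; rfl
  rw [h8] at h7
  have hNpos : (0 : ℝ) < N := by rw [hN]; positivity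
  have h9 : 1 / (2 * ((C : ℝ) + 1)) * ((C : ℝ) * N) < N := by
    rw [div_mul_eq_mul_div, one_mul, div_lt_iff₀ (by positivity)]
    nlinarith [show (0 : ℝ) ≤ C from by positivity]
  linarith

end Pool.Agent.H397R2
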