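import Mathlib
import Pool.Agent.H397R2.Inv

namespace Pool.Agent.H397R2

open Pool.Agent.Helper605.CP Filter Topology

variable {α : Type*}

/-- The `k`-kernel of a sequence. -/
def kernel (k : ℕ) (c : ℕ → α) : Set (ℕ → α) :=
  {f | ∃ i j : ℕ, j < k ^ i ∧ f = fun n => c (k ^ i * n + j)}

lemma orb_halve (m n a s i : ℕ) (h : orb m n = (a, 2 ^ i * s)) : orb (m + i) n = (a, s) := by
  induction i generalizing s with
  | zero => simpa using h
  | succ i ih =>
    have h1 : orb (m + i) n = (a, 2 * s) := ih (2 * s) (by rw [h, pow_succ]; ring_nf)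
    rw [← Nat.add_assoc, orb_succ, h1]
    simp [st1]

/-- Every pair `(q, s)` with `s < 3^q` prime to `3` is reached by residues modulo `2^k`, for all
large `k`. -/
lemma reach (q : ℕ) : ∀ s : ℕ, ((q = 0 ∧ s = 0) ∨ (s < 3 ^ q ∧ ¬ 3 ∣ s)) →
    ∃ K0 : ℕ, ∀ k, K0 ≤ k → ∃ r, r < 2 ^ k ∧ orb k r = (q, s) := by
  induction q with
  | zero =>
    intro s hs
    have hs0 : s = 0 := by
      rcases hs with h | h
      · exact h.2
      · have := h.1; simp at this; exact this
    subst hs0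
    refine ⟨0, fun k _ => ⟨0, by positivity, ?_⟩⟩
    have h0 : orb 0 0 = (0, 2 ^ k * 0) := by simp [orb_zero]
    have := orb_halve 0 0 0 0 k h0
    simpa using this
  | succ q ih =>
    intro s hs
    have hs3 : ¬ 3 ∣ s := by
      rcases hs with h | h
      · omega
      · exact h.2
    have hsq : s < 3 ^ (q + 1) := by
      rcases hs with h | h
      · omega
      · exact h.1
    -- choose `e ∈ [1,6]` with `2^e s ≡ 4 mod 9`
    obtain ⟨e, he1, he6, he⟩ : ∃ e, 1 ≤ e ∧ e ≤ 6 ∧ (2 ^ e * s) % 9 = 4 := by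
      have h9 : s % 9 = 1 ∨ s % 9 = 2 ∨ s % 9 = 4 ∨ s % 9 = 5 ∨ s % 9 = 7 ∨ s % 9 = 8 := by omega
      rcases h9 with h | h | h | h | h | h
      · exact ⟨2, by norm_num, by norm_num, by norm_num; omega⟩
      · exact ⟨1, by norm_num, by norm_num, by norm_num; omega⟩
      · exact ⟨6, by norm_num, by norm_num, by norm_num; omega⟩
      · exact ⟨3, by norm_num, by norm_num, by norm_num; omega⟩
      · exact ⟨4, by norm_num, by norm_num, by norm_num; omega⟩
      · exact ⟨5, by norm_num, by norm_num, by norm_num; omega⟩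
    obtain ⟨a, ha⟩ : ∃ a, 2 ^ e * s = 9 * a + 4 := ⟨2 ^ e * s / 9, by omega⟩
    set σ := 3 * a + 1 with hσ
    have h3σ : 3 * σ + 1 = 2 ^ e * s := by omega
    have hσlt : σ < 2 ^ e * 3 ^ q := by
      have h1 : 2 ^ e * s < 2 ^ e * 3 ^ (q + 1) := Nat.mul_lt_mul_of_pos_left hsq (by positivity)
      rw [pow_succ, ← mul_assoc] at h1
      omega
    obtain ⟨t, s', hts, hs'⟩ : ∃ t s', σ = 3 ^ q * t + s' ∧ s' < 3 ^ q :=
      ⟨σ / 3 ^ q, σ % 3 ^ q, (Nat.div_add_mod _ _).symm, Nat.mod_lt _ (by positivity)⟩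
    have ht : t < 2 ^ e := by
      by_contra hcon
      push Not at hcon
      have : 3 ^ q * 2 ^ e ≤ 3 ^ q * t := Nat.mul_le_mul_left _ hcon
      rw [mul_comm] at hσlt
      omega
    have hcase : (q = 0 ∧ s' = 0) ∨ (s' < 3 ^ q ∧ ¬ 3 ∣ s') := by
      rcases Nat.eq_zero_or_pos q with hq | hq
      · left
        subst hq
        simp at hs'
        exact ⟨rfl, hs'⟩
      · right
        refine ⟨hs', fun h3 => ?_⟩
        have h4 : 3 ∣ 3 ^ q * t := Dvd.dvd.mul_right (dvd_pow_self 3 (by omega)) t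
        have h5 : 3 ∣ σ := by rw [hts]; exact dvd_add h4 h3
        omega
    obtain ⟨K0, hK0⟩ := ih s' hcase
    refine ⟨K0 + 6, fun k hk => ?_⟩
    obtain ⟨k', rfl⟩ : ∃ k', k = k' + 1 + (e - 1) := ⟨k - e, by omega⟩
    obtain ⟨r', hr', horb⟩ := hK0 k' (by omega)
    refine ⟨r' + 2 ^ k' * t, ?_, ?_⟩
    · have h1 : 2 ^ (k' + 1 + (e - 1)) = 2 ^ k' * 2 ^ e := by
        rw [← pow_add]; congr 1; omega
      rw [h1]
      have h2 : 2 ^ k' * (t + 1) ≤ 2 ^ k' * 2 ^ e := Nat.mul_le_mul_left _ ht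
      rw [mul_add, mul_one] at h2
      omega
    · have h1 : orb k' (r' + 2 ^ k' * t) = (q, σ) := by
        rw [orb_add, horb, hts]
        ext
        · rfl
        · simp only; ring
      have h2 : orb (k' + 1) (r' + 2 ^ k' * t) = (q + 1, 2 ^ (e - 1) * s) := by
        rw [orb_succ, h1]
        simp only [st1, mul_zero, zero_add]
        have h4 : 2 ^ e * s = 2 * (2 ^ (e - 1) * s) := by
          rw [← mul_assoc, ← pow_succ']; congr 2; omega
        have h3 : ¬ σ % 2 = 0 := by omega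
        rw [if_neg h3]
        ext
        · rfl
        · simp only; omega
      exact orb_halve (k' + 1) _ (q + 1) s (e - 1) h2

/-- On some block of integers sharing a fixed leading part, an automatic Collatz-invariant
sequence is constant. -/
lemma exists_block {c : ℕ → α} (h : CInv c) {k : ℕ} (hk : 2 ≤ k) (hfin : (kernel k c).Finite) :
    ∃ m : ℕ, 1 ≤ m ∧ ∀ l r : ℕ, r < k ^ l → c (k ^ l * m + r) = c (k ^ l * m) := by
  classical
  by_contra hcon
  push Not at hcon
  -- every m has a bad place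
  have hbad : ∀ m : ℕ, 1 ≤ m → ∃ l j : ℕ, j + 1 < k ^ l ∧
      c (k ^ l * m + j) ≠ c (k ^ l * m + (j + 1)) := by
    intro m hm
    obtain ⟨l, r, hr, hne⟩ := hcon m hm
    by_contra hcon2
    push Not at hcon2
    apply hne
    have : ∀ r, r < k ^ l → c (k ^ l * m + r) = c (k ^ l * m) := by
      intro r
      induction r with
      | zero => intro _; simp
      | succ r ih =>
        intro hr
        rw [← hcon2 l r hr]
        exact ih (by omega)
    exact this r hr
  -- finite set of pairs of kernel elements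
  set P : Set ((ℕ → α) × (ℕ → α)) := {p | ∃ l j : ℕ, j + 1 < k ^ l ∧
    p.1 = (fun n => c (k ^ l * n + j)) ∧ p.2 = (fun n => c (k ^ l * n + (j + 1)))} with hP
  have hPfin : P.Finite := by
    refine (hfin.prod hfin).subset ?_
    rintro ⟨f, f'⟩ ⟨l, j, hj, h1, h2⟩
    exact ⟨⟨l, j, by omega, h1⟩, ⟨l, j + 1, hj, h2⟩⟩
  haveI : Fintype P := hPfin.fintype
  have hchoose : ∀ p : P, ∃ lj : ℕ × ℕ, lj.2 + 1 < k ^ lj.1 ∧
    p.1.1 = (fun n => c (k ^ lj.1 * n + lj.2)) ∧
    p.1.2 = (fun n => c (k ^ lj.1 * n + (lj.2 + 1))) := by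
    rintro ⟨p, l, j, hj, h1, h2⟩
    exact ⟨(l, j), hj, h1, h2⟩
  choose lj hlj1 hlj2 hlj3 using hchoose
  refine not_cover h.zd (fun p : P => k ^ (lj p).1) (fun p : P => (lj p).2)
    (fun p => Nat.one_le_pow _ _ (by omega)) ?_
  intro m hm
  obtain ⟨l, j, hj, hne⟩ := hbad m hm
  let p : P := ⟨((fun n => c (k ^ l * n + j)), (fun n => c (k ^ l * n + (j + 1)))),
    l, j, hj, rfl, rfl⟩
  refine ⟨p, ?_⟩
  show c (k ^ (lj p).1 * m + (lj p).2) ≠ c (k ^ (lj p).1 * m + (lj p).2 + 1)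
  have e1 := congrFun (hlj2 p) m
  have e2 := congrFun (hlj3 p) m
  rw [Nat.add_assoc, ← e1, ← e2]
  exact hne

lemma pow_mult_indep {k : ℕ} (hk : ∀ a, k ≠ 2 ^ a) {p : ℕ} (hp : 1 ≤ p) :
    ∀ a b : ℕ, 1 ≤ a → (k ^ p) ^ a ≠ 2 ^ b := by
  intro a b ha h
  rcases Nat.eq_two_pow_or_exists_odd_prime_and_dvd k with ⟨e, he⟩ | ⟨q, hq, hqk, hodd⟩
  · exact hk e he
  · have h1 : q ∣ 2 ^ b := by
      rw [← h, ← pow_mul]
      exact dvd_pow hqk (by positivity)
    have h2 := hq.dvd_of_dvd_pow h1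
    have h3 : q = 2 := (Nat.prime_dvd_prime_iff_eq hq Nat.prime_two).mp h2
    subst h3
    exact absurd hodd (by decide)

/-- First case: the base is not a power of two. -/
lemma const_of_not_two_pow {c : ℕ → α} (h : CInv c) {k : ℕ} (hk : 2 ≤ k)
    (hk2 : ∀ a, k ≠ 2 ^ a) (hfin : (kernel k c).Finite) :
    ∃ v : α, ∀ n, 1 ≤ n → c n = v := by
  obtain ⟨m, hm, hblock⟩ := exists_block h hk hfin
  -- eventual periodicity along powers of `k`
  obtain ⟨l1, l2, hlt, heq⟩ : ∃ l1 l2 : ℕ, l1 < l2 ∧ ∀ n, c (k ^ l1 * n) = c (k ^ l2 * n) := by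
    haveI : Finite (kernel k c) := hfin
    obtain ⟨x, y, hxy, hf⟩ := Finite.exists_ne_map_eq_of_infinite
      (fun l : ℕ => (⟨fun n => c (k ^ l * n + 0), l, 0, by positivity, rfl⟩ : kernel k c))
    have hf' : ∀ n, c (k ^ x * n) = c (k ^ y * n) := by
      intro n
      have := congrFun (congrArg Subtype.val hf) n
      simpa using this
    rcases lt_or_gt_of_ne hxy with h1 | h1
    · exact ⟨x, y, h1, hf'⟩
    · exact ⟨y, x, h1, fun n => (hf' n).symm⟩
  obtain ⟨p, hp, rfl⟩ : ∃ p, 1 ≤ p ∧ l2 = l1 + p := ⟨l2 - l1, by omega, by omega⟩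
  have hper : ∀ t n, c (k ^ (l1 + p * t) * n) = c (k ^ l1 * n) := by
    intro t
    induction t with
    | zero => intro n; simp
    | succ t ih =>
      intro n
      have e : k ^ (l1 + p * (t + 1)) * n = k ^ (l1 + p) * (k ^ (p * t) * n) := by
        rw [← mul_assoc, ← pow_add]; congr 2; ring
      rw [e, ← heq, ← mul_assoc, ← pow_add, ih]
  refine ⟨c (k ^ l1 * m), fun n hn => ?_⟩
  have hnpos : (0 : ℝ) < n := by exact_mod_cast hn
  have hmpos : (0 : ℝ) < m := by exact_mod_cast hm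
  have hkpos : (0 : ℝ) < k := by exact_mod_cast (by omega : 0 < k)
  have hKp : 2 ≤ k ^ p := hk.trans (Nat.le_self_pow (by omega) k)
  obtain ⟨j, t, h1, h2⟩ := exists_pow_between hKp (pow_mult_indep hk2 hp)
    (x := (k : ℝ) ^ l1 * m / n) (y := (k : ℝ) ^ l1 * (m + 1) / n) (by positivity)
    (by
      apply div_lt_div_of_pos_right _ hnpos
      apply mul_lt_mul_of_pos_left _ (by positivity)
      linarith)
  rw [div_mul_eq_mul_div, div_lt_iff₀ hnpos] at h1
  rw [div_mul_eq_mul_div, lt_div_iff₀ hnpos] at h2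
  have h1' : k ^ (l1 + p * t) * m < 2 ^ j * n := by
    have : (k : ℝ) ^ (l1 + p * t) * m < 2 ^ j * n := by
      rw [pow_add, pow_mul]
      calc (k : ℝ) ^ l1 * ((k : ℝ) ^ p) ^ t * m = (k : ℝ) ^ l1 * m * ((k ^ p : ℕ) : ℝ) ^ t := by
            push_cast; ring
        _ < _ := h1
    exact_mod_cast this
  have h2' : 2 ^ j * n < k ^ (l1 + p * t) * (m + 1) := by
    have : (2 : ℝ) ^ j * n < (k : ℝ) ^ (l1 + p * t) * (m + 1) := by
      rw [pow_add, pow_mul]
      calc (2 : ℝ) ^ j * n < (k : ℝ) ^ l1 * (m + 1) * ((k ^ p : ℕ) : ℝ) ^ t := h2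
        _ = _ := by push_cast; ring
    exact_mod_cast this
  obtain ⟨r, hr⟩ : ∃ r, 2 ^ j * n = k ^ (l1 + p * t) * m + r := ⟨2 ^ j * n - k ^ (l1 + p * t) * m,
    by omega⟩
  have hrlt : r < k ^ (l1 + p * t) := by
    rw [mul_add, mul_one] at h2'; omega
  rw [← h.pow j n, hr, hblock _ _ hrlt, hper]

/-- Second case: the base is a power of two. -/
lemma const_of_two_pow {c : ℕ → α} (h : CInv c) {a : ℕ} (ha : 1 ≤ a)
    (hfin : (kernel (2 ^ a) c).Finite) :
    ∃ v : α, ∀ n, 1 ≤ n → c n = v := by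
  have hk : 2 ≤ 2 ^ a := by
    calc 2 = 2 ^ 1 := rfl
      _ ≤ 2 ^ a := Nat.pow_le_pow_right (by norm_num) ha
  obtain ⟨m, hm, hblock⟩ := exists_block h hk hfin
  have hblock' : ∀ l r, r < 2 ^ (a * l) → c (r + 2 ^ (a * l) * m) = c m := by
    intro l r hr
    rw [pow_mul] at hr ⊢
    rw [add_comm, hblock l r hr, ← pow_mul, h.pow]
  -- all integers prime to `3`
  have hcop : ∀ n, 1 ≤ n → ¬ 3 ∣ n → c n = c m := by
    intro n hn h3
    have hnpos : (0 : ℝ) < n := by exact_mod_cast hn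
    have hmpos : (0 : ℝ) < m := by exact_mod_cast hm
    obtain ⟨j, q, h1, h2⟩ := exists_pow_between (K := 3) (by norm_num) (by
        intro a b ha hab
        have := pow_mult_indep (k := 3) (fun a h => by
          have h4 : (3 : ℕ) % 2 = 1 := rfl
          rw [h] at h4
          rcases Nat.eq_zero_or_pos a with h5 | h5
          · subst h5; norm_num at h
          · have : 2 ^ a % 2 = 0 := Nat.mod_eq_zero_of_dvd (dvd_pow_self 2 (by omega))
            omega) (p := 1) le_rfl a b ha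
        exact this (by simpa using hab))
      (x := (m : ℝ) / n) (y := ((m : ℝ) + 1) / n) (by positivity)
      (div_lt_div_of_pos_right (by linarith) hnpos)
    rw [div_mul_eq_mul_div, div_lt_iff₀ hnpos] at h1
    rw [div_mul_eq_mul_div, lt_div_iff₀ hnpos] at h2
    have h1' : m * 3 ^ q < 2 ^ j * n := by exact_mod_cast h1
    have h2' : 2 ^ j * n < (m + 1) * 3 ^ q := by exact_mod_cast h2
    obtain ⟨s, hs⟩ : ∃ s, 2 ^ j * n = 3 ^ q * m + s := ⟨2 ^ j * n - 3 ^ q * m, by
      rw [mul_comm] at h1'; omega⟩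
    have hs0 : 0 < s := by rw [mul_comm] at h1'; omega
    have hslt : s < 3 ^ q := by
      rw [add_mul, one_mul, mul_comm m] at h2'; omega
    have hq : q ≠ 0 := by
      rintro rfl
      simp at hslt; omega
    have h3s : ¬ 3 ∣ s := by
      intro h4
      have h5 : 3 ∣ 2 ^ j * n := by
        rw [hs]; exact dvd_add (Dvd.dvd.mul_right (dvd_pow_self 3 hq) m) h4
      rcases (Nat.Prime.dvd_mul Nat.prime_three).mp h5 with h6 | h6
      · have := Nat.Prime.dvd_of_dvd_pow Nat.prime_three h6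
        omega
      · exact h3 h6
    obtain ⟨K0, hK0⟩ := reach q s (Or.inr ⟨hslt, h3s⟩)
    obtain ⟨r, hr, horb⟩ := hK0 (a * K0) (Nat.le_mul_of_pos_left K0 ha)
    have e1 := hblock' K0 r hr
    have e2 := h.orb (a * K0) (r + 2 ^ (a * K0) * m)
    rw [orb_add, horb] at e2
    simp only at e2
    rw [← h.pow j n, hs, add_comm, e2, e1]
  refine ⟨c m, fun n hn => ?_⟩
  by_cases h3 : 3 ∣ n
  · obtain ⟨e, o, ho, rfl⟩ := Nat.exists_eq_two_pow_mul_odd (n := n) (by omega)
    obtain ⟨i, rfl⟩ := ho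
    rw [h.pow, ← h.odd]
    exact hcop _ (by omega) (by omega)
  · exact hcop n hn h3

/-- **Main theorem.** A sequence that is constant along Collatz trajectories and has a finite
`k`-kernel for some `k ≥ 2` is constant on the positive integers. -/
theorem const_of_finite_kernel {c : ℕ → α} (h : CInv c) {k : ℕ} (hk : 2 ≤ k)
    (hfin : (kernel k c).Finite) : ∀ n, 1 ≤ n → c n = c 1 := by
  have main : ∃ v : α, ∀ n, 1 ≤ n → c n = v := by
    by_cases hk2 : ∃ a, k = 2 ^ a
    · obtain ⟨a, rfl⟩ := hk2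
      have ha : 1 ≤ a := by
        rcases Nat.eq_zero_or_pos a with h0 | h0
        · subst h0; norm_num at hk
        · exact h0
      exact const_of_two_pow h ha hfin
    · push Not at hk2
      exact const_of_not_two_pow h hk hk2 hfin
  obtain ⟨v, hv⟩ := main
  intro n hn
  rw [hv n hn, hv 1 le_rfl]

end Pool.Agent.H397R2
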