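import Mathlib

namespace Pool.Agent.H397R2

open MeasureTheory Set Filter Topology

/-- the point `r e^{iθ}` -/
noncomputable def cp (r θ : ℝ) : ℂ := r * Complex.exp (θ * Complex.I)

lemma norm_cp {r : ℝ} (hr : 0 ≤ r) (θ : ℝ) : ‖cp r θ‖ = r := by
  rw [cp, norm_mul, Complex.norm_exp_ofReal_mul_I, mul_one, Complex.norm_real, Real.norm_eq_abs,
    abs_of_nonneg hr]

lemma continuous_cp (r : ℝ) : Continuous (cp r) := by
  unfold cp; fun_prop

/-- a power series on a circle -/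
noncomputable def ser (f : ℕ → ℂ) (r θ : ℝ) : ℂ := ∑' n, f n * (cp r θ) ^ n

lemma norm_term {r : ℝ} (hr : 0 ≤ r) (f : ℕ → ℂ) (θ : ℝ) (n : ℕ) :
    ‖f n * (cp r θ) ^ n‖ = ‖f n‖ * r ^ n := by
  rw [norm_mul, norm_pow, norm_cp hr]

lemma continuous_ser {f : ℕ → ℂ} {r : ℝ} (hr : 0 ≤ r) (hf : Summable fun n => ‖f n‖ * r ^ n) :
    Continuous (ser f r) := by
  unfold ser
  refine continuous_tsum (fun n => ?_) hf (fun n θ => (norm_term hr f θ n).le)
  have := continuous_cp r
  fun_prop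

lemma hasSum_ser {f : ℕ → ℂ} {r : ℝ} (hr : 0 ≤ r) (hf : Summable fun n => ‖f n‖ * r ^ n)
    (θ : ℝ) : HasSum (fun n => f n * (cp r θ) ^ n) (ser f r θ) := by
  refine Summable.hasSum (Summable.of_norm ?_)
  simpa only [norm_term hr] using hf

lemma norm_ser_le {f : ℕ → ℂ} {r : ℝ} (hr : 0 ≤ r) (hf : Summable fun n => ‖f n‖ * r ^ n)
    (θ : ℝ) : ‖ser f r θ‖ ≤ ∑' n, ‖f n‖ * r ^ n := by
  have : Summable fun n => ‖f n * (cp r θ) ^ n‖ := by simpa only [norm_term hr] using hf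
  refine (norm_tsum_le_tsum_norm this).trans (le_of_eq ?_)
  simp only [norm_term hr]

lemma fourierCoeffOn_ser {f : ℕ → ℂ} {r : ℝ} (hr : 0 ≤ r) (hf : Summable fun n => ‖f n‖ * r ^ n)
    (n : ℕ) : fourierCoeffOn (Real.two_pi_pos) (ser f r) (n : ℤ) = f n * (r : ℂ) ^ n := by
  rw [fourierCoeffOn_eq_integral]
  have hterm : ∀ (m : ℕ) (x : ℝ), (fourier (-(n : ℤ)) (x : AddCircle (2 * Real.pi - 0)) : ℂ) •
      (f m * (cp r x) ^ m) = f m * (r : ℂ) ^ m * Complex.exp (((m : ℂ) - n) * Complex.I * x) := by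
    intro m x
    rw [fourier_coe_apply, smul_eq_mul, cp, mul_pow, ← Complex.exp_nat_mul]
    have h1 : (2 : ℂ) * Real.pi * Complex.I * ((-(n : ℤ) : ℤ) : ℂ) * x / ((2 * Real.pi - 0 : ℝ) : ℂ)
        = -(n : ℂ) * Complex.I * x := by
      have : (Real.pi : ℂ) ≠ 0 := by exact_mod_cast Real.pi_ne_zero
      push_cast
      rw [sub_zero]
      field_simp
    rw [h1]
    have h2 : Complex.exp (((m : ℂ) - n) * Complex.I * x) =
        Complex.exp (-(n : ℂ) * Complex.I * x) * Complex.exp ((m : ℂ) * (x * Complex.I)) := by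
      rw [← Complex.exp_add]; congr 1; ring
    rw [h2]; ring
  have hsum : HasSum (fun m : ℕ => ∫ x in (0 : ℝ)..(2 * Real.pi),
      (fourier (-(n : ℤ)) (x : AddCircle (2 * Real.pi - 0)) : ℂ) • (f m * (cp r x) ^ m))
      (∫ x in (0 : ℝ)..(2 * Real.pi),
        (fourier (-(n : ℤ)) (x : AddCircle (2 * Real.pi - 0)) : ℂ) • ser f r x) := by
    refine intervalIntegral.hasSum_integral_of_dominated_convergence
      (fun m _ => ‖f m‖ * r ^ m) (fun m => ?_) (fun m => ?_) ?_ ?_ ?_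
    · apply Continuous.aestronglyMeasurable
      simp_rw [hterm]
      fun_prop
    · filter_upwards with x _
      rw [norm_smul, norm_term hr, fourier_coe_apply]
      have : ‖Complex.exp (2 * (Real.pi : ℂ) * Complex.I * ((-(n : ℤ) : ℤ) : ℂ) * x /
          ((2 * Real.pi - 0 : ℝ) : ℂ))‖ = 1 := by
        have e : 2 * (Real.pi : ℂ) * Complex.I * ((-(n : ℤ) : ℤ) : ℂ) * x /
          ((2 * Real.pi - 0 : ℝ) : ℂ) = ((-(n : ℝ) * x : ℝ) : ℂ) * Complex.I := by
          have : (Real.pi : ℂ) ≠ 0 := by exact_mod_cast Real.pi_ne_zero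
          push_cast
          rw [sub_zero]
          field_simp
        rw [e, Complex.norm_exp_ofReal_mul_I]
      rw [this, one_mul]
    · filter_upwards with x _
      exact hf
    · exact continuous_const.intervalIntegrable _ _
    · filter_upwards with x _
      exact (hasSum_ser hr hf x).const_smul _
  have hint : ∀ m : ℕ, ∫ x in (0 : ℝ)..(2 * Real.pi),
      (fourier (-(n : ℤ)) (x : AddCircle (2 * Real.pi - 0)) : ℂ) • (f m * (cp r x) ^ m) =
      if m = n then (2 * Real.pi : ℝ) • (f n * (r : ℂ) ^ n) else 0 := by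
    intro m
    simp_rw [hterm]
    split_ifs with hmn
    · subst hmn
      simp
      ring
    · rw [intervalIntegral.integral_const_mul, integral_exp_mul_complex]
      · have e1 : Complex.exp (((m : ℂ) - n) * Complex.I * ((2 * Real.pi : ℝ) : ℂ)) = 1 := by
          rw [Complex.exp_eq_one_iff]
          exact ⟨(m : ℤ) - n, by push_cast; ring⟩
        rw [e1]; simp
      · apply mul_ne_zero _ Complex.I_ne_zero
        rw [sub_ne_zero]
        exact_mod_cast hmn
  simp_rw [hint] at hsum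
  have h2 : HasSum (fun m : ℕ => if m = n then (2 * Real.pi : ℝ) • (f n * (r : ℂ) ^ n) else 0)
      ((2 * Real.pi : ℝ) • (f n * (r : ℂ) ^ n)) := hasSum_ite_eq n _
  rw [← h2.unique hsum, smul_smul, sub_zero, one_div, inv_mul_cancel₀ Real.two_pi_pos.ne', one_smul]

/-- Bessel's inequality for power series. -/
lemma bessel {f : ℕ → ℂ} {r : ℝ} (hr : 0 ≤ r) (hf : Summable fun n => ‖f n‖ * r ^ n) (N : ℕ) :
    ∑ n ∈ Finset.range N, ‖f n‖ ^ 2 * r ^ (2 * n) ≤
      (2 * Real.pi)⁻¹ * ∫ θ in (0 : ℝ)..(2 * Real.pi), ‖ser f r θ‖ ^ 2 := by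
  have hcont := continuous_ser hr hf
  have hL2 : MemLp (ser f r) 2 (volume.restrict (Ioc 0 (2 * Real.pi))) := by
    refine MemLp.of_bound hcont.aestronglyMeasurable (∑' n, ‖f n‖ * r ^ n) ?_
    filter_upwards with θ
    exact norm_ser_le hr hf θ
  have h := hasSum_sq_fourierCoeffOn Real.two_pi_pos hL2
  rw [sub_zero, smul_eq_mul] at h
  have h2 := sum_le_hasSum ((Finset.range N).map Nat.castEmbedding) (fun i _ => sq_nonneg _) h
  refine le_trans (le_of_eq ?_) h2
  rw [Finset.sum_map]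
  apply Finset.sum_congr rfl
  intro n _
  show _ = ‖fourierCoeffOn Real.two_pi_pos (ser f r) ((n : ℕ) : ℤ)‖ ^ 2
  rw [fourierCoeffOn_ser hr hf, norm_mul, norm_pow, Complex.norm_real, Real.norm_eq_abs,
    abs_of_nonneg hr]
  ring

/-- the part of the series with exponents `≡ s mod M` -/
def sec (M s : ℕ) (f : ℕ → ℂ) : ℕ → ℂ := fun n => if n % M = s then f n else 0

lemma summable_sec {f : ℕ → ℂ} {r : ℝ} (hr : 0 ≤ r) (hf : Summable fun n => ‖f n‖ * r ^ n)
    (M s : ℕ) : Summable fun n => ‖sec M s f n‖ * r ^ n := by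
  refine Summable.of_nonneg_of_le (fun n => by positivity) (fun n => ?_) hf
  simp only [sec]
  split_ifs
  · exact le_rfl
  · rw [norm_zero, zero_mul]; positivity

/-- primitive root -/
noncomputable def zt (M : ℕ) : ℂ := Complex.exp (2 * Real.pi / M * Complex.I)

lemma zt_pow (M n : ℕ) : zt M ^ n = Complex.exp ((2 * Real.pi / M * n : ℝ) * Complex.I) := by
  rw [zt, ← Complex.exp_nat_mul]; congr 1; push_cast; ring

lemma zt_pow_M {M : ℕ} (hM : 0 < M) : zt M ^ M = 1 := by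
  rw [zt, ← Complex.exp_nat_mul, Complex.exp_eq_one_iff]
  refine ⟨1, ?_⟩
  have : (M : ℂ) ≠ 0 := by exact_mod_cast hM.ne'
  push_cast
  field_simp

lemma zt_pow_mod {M : ℕ} (hM : 0 < M) (n : ℕ) : zt M ^ n = zt M ^ (n % M) := by
  conv_lhs => rw [← Nat.div_add_mod n M, pow_add, pow_mul, zt_pow_M hM, one_pow, one_mul]

lemma zt_injOn {M : ℕ} (hM : 0 < M) : Set.InjOn (fun s : ℕ => zt M ^ s) (Set.Iio M) := by
  have h : IsPrimitiveRoot (zt M) M := by
    have h1 := Complex.isPrimitiveRoot_exp M hM.ne'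
    have e : zt M = Complex.exp (2 * Real.pi * Complex.I / M) := by
      rw [zt]; congr 1; ring
    rw [e]; exact h1
  intro a ha b hb hab
  exact h.pow_inj ha hb hab

/-- rotating a section multiplies it by a root of unity -/
lemma ser_rot {f : ℕ → ℂ} {r : ℝ} {M : ℕ} (hM : 0 < M) (s j : ℕ) (θ : ℝ) :
    ser (sec M s f) r (θ + j * (2 * Real.pi / M)) = zt M ^ (j * s) * ser (sec M s f) r θ := by
  unfold ser
  rw [← tsum_mul_left]
  congr 1
  ext n
  simp only [sec]
  split_ifs with hn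
  · have h1 : cp r (θ + j * (2 * Real.pi / M)) = zt M ^ j * cp r θ := by
      rw [cp, cp, zt_pow]
      have : Complex.exp (((θ + j * (2 * Real.pi / M) : ℝ) : ℂ) * Complex.I) =
          Complex.exp ((2 * Real.pi / M * j : ℝ) * Complex.I) * Complex.exp (θ * Complex.I) := by
        rw [← Complex.exp_add]; congr 1; push_cast; ring
      rw [this]; ring
    rw [h1, mul_pow, ← pow_mul, zt_pow_mod hM (j * n), Nat.mul_mod, hn,
      zt_pow_mod hM (j * s)]
    have : (j * s) % M = (j % M * s) % M := by rw [Nat.mul_mod, Nat.mul_mod (j % M) s]; simp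
    rw [this]
    ring
  · simp

lemma ser_eq_sum_sec {f : ℕ → ℂ} {r : ℝ} (hr : 0 ≤ r) (hf : Summable fun n => ‖f n‖ * r ^ n)
    {M : ℕ} {B : Finset ℕ} (hB : ∀ n, n % M ∉ B → f n = 0) (θ : ℝ) :
    ser f r θ = ∑ s ∈ B, ser (sec M s f) r θ := by
  have h1 : HasSum (fun n => ∑ s ∈ B, sec M s f n * (cp r θ) ^ n)
      (∑ s ∈ B, ser (sec M s f) r θ) :=
    hasSum_sum (fun s _ => hasSum_ser hr (summable_sec hr hf M s) θ)
  have h2 : (fun n => ∑ s ∈ B, sec M s f n * (cp r θ) ^ n) = fun n => f n * (cp r θ) ^ n := by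
    ext n
    by_cases hn : n % M ∈ B
    · rw [Finset.sum_eq_single (n % M)]
      · simp [sec]
      · intro b _ hb
        simp [sec, hb.symm]
      · intro h; exact absurd hn h
    · rw [hB n hn, zero_mul]
      apply Finset.sum_eq_zero
      intro s _
      simp [sec, hB n hn]
  rw [h2] at h1
  exact (hasSum_ser hr hf θ).unique h1

/-- the coefficients of the Lagrange polynomials -/
noncomputable def lag (M : ℕ) (B : Finset ℕ) (s j : ℕ) : ℂ :=
  (Lagrange.basis B (fun t : ℕ => zt M ^ t) s).coeff j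

lemma lag_spec {M : ℕ} (hM : 0 < M) {B : Finset ℕ} (hBM : ∀ s ∈ B, s < M) {s t : ℕ}
    (hs : s ∈ B) (ht : t ∈ B) :
    ∑ j ∈ Finset.range B.card, lag M B s j * (zt M ^ t) ^ j = if s = t then 1 else 0 := by
  have hinj : Set.InjOn (fun t : ℕ => zt M ^ t) B :=
    (zt_injOn hM).mono (fun x hx => hBM x hx)
  have hcard : 0 < B.card := Finset.card_pos.mpr ⟨s, hs⟩
  have hdeg : (Lagrange.basis B (fun t : ℕ => zt M ^ t) s).natDegree < B.card := by
    rw [Polynomial.natDegree_eq_of_degree_eq_some (Lagrange.degree_basis hinj hs)]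
    omega
  have h := Polynomial.eval_eq_sum_range' hdeg (zt M ^ t)
  unfold lag
  rw [← h]
  split_ifs with hst
  · subst hst
    exact Lagrange.eval_basis_self hinj hs
  · exact Lagrange.eval_basis_of_ne (v := fun t : ℕ => zt M ^ t) hst ht

lemma sec_eq_sum {f : ℕ → ℂ} {r : ℝ} (hr : 0 ≤ r) (hf : Summable fun n => ‖f n‖ * r ^ n)
    {M : ℕ} (hM : 0 < M) {B : Finset ℕ} (hBM : ∀ s ∈ B, s < M)
    (hB : ∀ n, n % M ∉ B → f n = 0) {s : ℕ} (hs : s ∈ B) (θ : ℝ) :
    ser (sec M s f) r θ =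
      ∑ j ∈ Finset.range B.card, lag M B s j * ser f r (θ + j * (2 * Real.pi / M)) := by
  have h1 : ∀ j : ℕ, ser f r (θ + j * (2 * Real.pi / M)) =
      ∑ t ∈ B, (zt M ^ t) ^ j * ser (sec M t f) r θ := by
    intro j
    rw [ser_eq_sum_sec hr hf hB]
    apply Finset.sum_congr rfl
    intro t _
    rw [ser_rot hM, ← pow_mul, mul_comm j t]
  simp_rw [h1, Finset.mul_sum]
  rw [Finset.sum_comm]
  have h2 : ∀ t ∈ B, ∑ j ∈ Finset.range B.card,
      lag M B s j * ((zt M ^ t) ^ j * ser (sec M t f) r θ) =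
      if s = t then ser (sec M t f) r θ else 0 := by
    intro t ht
    have h3 : ∑ j ∈ Finset.range B.card,
        lag M B s j * ((zt M ^ t) ^ j * ser (sec M t f) r θ) =
        (∑ j ∈ Finset.range B.card, lag M B s j * (zt M ^ t) ^ j) * ser (sec M t f) r θ := by
      rw [Finset.sum_mul]
      apply Finset.sum_congr rfl
      intro j _; ring
    rw [h3, lag_spec hM hBM hs ht]
    split_ifs <;> simp
  rw [Finset.sum_congr rfl h2, Finset.sum_ite_eq]
  simp [hs]

/-- **Local to global `L²` inequality** for power series with exponents in few residue classes. -/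
theorem local_bound {M : ℕ} (hM : 0 < M) (B : Finset ℕ) (hBM : ∀ s ∈ B, s < M) {α β : ℝ}
    (hαβ : B.card * (2 * Real.pi / M) ≤ β - α) :
    ∃ K : ℝ, 0 ≤ K ∧ ∀ (f : ℕ → ℂ) (r : ℝ), 0 ≤ r → (Summable fun n => ‖f n‖ * r ^ n) →
      (∀ n, n % M ∉ B → f n = 0) → ∀ N, ∑ n ∈ Finset.range N, ‖f n‖ ^ 2 * r ^ (2 * n) ≤
        K * ∫ θ in α..β, ‖ser f r θ‖ ^ 2 := by
  set p : ℝ := 2 * Real.pi / M with hp
  have hMpos : (0 : ℝ) < M := by exact_mod_cast hM
  have hppos : 0 < p := by rw [hp]; have := Real.pi_pos; positivity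
  set b := B.card with hb
  refine ⟨(2 * Real.pi)⁻¹ * (b * (∑ s ∈ B, M * (∑ j ∈ Finset.range b, ‖lag M B s j‖ ^ 2))),
    by have := Real.pi_pos; positivity, ?_⟩
  intro f r hr hf hB N
  have hF : Continuous (ser f r) := continuous_ser hr hf
  have hF2 : Continuous fun θ => ‖ser f r θ‖ ^ 2 := by fun_prop
  have hS : ∀ s, Continuous fun θ => ‖ser (sec M s f) r θ‖ ^ 2 := fun s => by
    have := continuous_ser hr (summable_sec hr hf M s)
    fun_prop
  have hi : ∀ (g : ℝ → ℝ), Continuous g → ∀ x y, IntervalIntegrable g volume x y :=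
    fun g hg x y => hg.intervalIntegrable x y
  -- one section on a short interval
  have h3 : ∀ s ∈ B, ∫ θ in α..(α + p), ‖ser (sec M s f) r θ‖ ^ 2 ≤
      (∑ j ∈ Finset.range b, ‖lag M B s j‖ ^ 2) * ∫ θ in α..β, ‖ser f r θ‖ ^ 2 := by
    intro s hs
    have hpt : ∀ θ, ‖ser (sec M s f) r θ‖ ^ 2 ≤ (∑ j ∈ Finset.range b, ‖lag M B s j‖ ^ 2) *
        ∑ j ∈ Finset.range b, ‖ser f r (θ + j * p)‖ ^ 2 := by
      intro θ
      rw [sec_eq_sum hr hf hM hBM hB hs]
      calc ‖∑ j ∈ Finset.range B.card, lag M B s j * ser f r (θ + j * (2 * Real.pi / M))‖ ^ 2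
          ≤ (∑ j ∈ Finset.range B.card, ‖lag M B s j‖ * ‖ser f r (θ + j * p)‖) ^ 2 := by
            apply pow_le_pow_left₀ (norm_nonneg _)
            refine (norm_sum_le _ _).trans (le_of_eq ?_)
            simp only [norm_mul, hp]
        _ ≤ _ := Finset.sum_mul_sq_le_sq_mul_sq _ _ _
    have h4 : ∫ θ in α..(α + p), ‖ser (sec M s f) r θ‖ ^ 2 ≤
        ∫ θ in α..(α + p), (∑ j ∈ Finset.range b, ‖lag M B s j‖ ^ 2) *
          ∑ j ∈ Finset.range b, ‖ser f r (θ + j * p)‖ ^ 2 := by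
      apply intervalIntegral.integral_mono (by linarith) (hi _ (hS s) _ _)
      · apply hi
        fun_prop
      · exact hpt
    refine h4.trans ?_
    rw [intervalIntegral.integral_const_mul]
    apply mul_le_mul_of_nonneg_left _ (by positivity)
    rw [intervalIntegral.integral_finsetSum]
    swap
    · intro j _
      apply hi
      fun_prop
    have h5 : ∀ j : ℕ, ∫ θ in α..(α + p), ‖ser f r (θ + j * p)‖ ^ 2 =
        ∫ θ in (α + (j : ℕ) * p)..(α + ((j + 1 : ℕ) : ℝ) * p), ‖ser f r θ‖ ^ 2 := by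
      intro j
      rw [intervalIntegral.integral_comp_add_right (fun θ => ‖ser f r θ‖ ^ 2) (j * p)]
      congr 1
      push_cast; ring
    simp_rw [h5]
    rw [intervalIntegral.sum_integral_adjacent_intervals (a := fun j : ℕ => α + (j : ℝ) * p)
      (fun k _ => hi _ hF2 _ _)]
    have h6 : ∫ θ in α..β, ‖ser f r θ‖ ^ 2 = (∫ θ in α..(α + b * p), ‖ser f r θ‖ ^ 2) +
        ∫ θ in (α + b * p)..β, ‖ser f r θ‖ ^ 2 :=
      (intervalIntegral.integral_add_adjacent_intervals (hi _ hF2 _ _) (hi _ hF2 _ _)).symm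
    have h7 : 0 ≤ ∫ θ in (α + b * p)..β, ‖ser f r θ‖ ^ 2 := by
      apply intervalIntegral.integral_nonneg (by linarith)
      intro θ _; positivity
    rw [h6]
    simp only [Nat.cast_zero, zero_mul, add_zero]
    linarith
  -- the whole circle
  have h8 : ∀ s ∈ B, ∫ θ in (0 : ℝ)..(2 * Real.pi), ‖ser (sec M s f) r θ‖ ^ 2 ≤
      M * ((∑ j ∈ Finset.range b, ‖lag M B s j‖ ^ 2) * ∫ θ in α..β, ‖ser f r θ‖ ^ 2) := by
    intro s hs
    have hper : Function.Periodic (fun θ => ‖ser (sec M s f) r θ‖ ^ 2) p := by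
      intro θ
      have := ser_rot (f := f) (r := r) hM s 1 θ
      rw [Nat.cast_one, one_mul, one_mul, ← hp] at this
      simp only [this, norm_mul, norm_pow]
      have hz : ‖zt M‖ = 1 := by
        rw [zt]
        have e : (2 * (Real.pi : ℂ) / M * Complex.I) = ((2 * Real.pi / M : ℝ) : ℂ) * Complex.I := by
          push_cast; ring
        rw [e, Complex.norm_exp_ofReal_mul_I]
      rw [hz, one_pow, one_mul]
    have e1 := hper.intervalIntegral_add_zsmul_eq (M : ℤ) 0 (fun x y => hi _ (hS s) x y)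
    have e2 : (0 : ℝ) + (M : ℤ) • p = 2 * Real.pi := by
      rw [zero_add, hp, zsmul_eq_mul]; push_cast; field_simp
    rw [e2, zero_add] at e1
    have e3 := hper.intervalIntegral_add_eq 0 α
    rw [zero_add] at e3
    rw [e1, e3, zsmul_eq_mul, Int.cast_natCast]
    exact mul_le_mul_of_nonneg_left (h3 s hs) hMpos.le
  have h9 : ∫ θ in (0 : ℝ)..(2 * Real.pi), ‖ser f r θ‖ ^ 2 ≤
      b * ∑ s ∈ B, ∫ θ in (0 : ℝ)..(2 * Real.pi), ‖ser (sec M s f) r θ‖ ^ 2 := by
    rw [← intervalIntegral.integral_finsetSum (fun s _ => hi _ (hS s) _ _),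
      ← intervalIntegral.integral_const_mul]
    apply intervalIntegral.integral_mono (by have := Real.pi_pos; linarith) (hi _ hF2 _ _)
    · apply hi
      apply Continuous.mul continuous_const
      exact continuous_finsetSum _ (fun s _ => hS s)
    · intro θ
      show ‖ser f r θ‖ ^ 2 ≤ b * ∑ s ∈ B, ‖ser (sec M s f) r θ‖ ^ 2
      rw [ser_eq_sum_sec hr hf hB]
      calc ‖∑ s ∈ B, ser (sec M s f) r θ‖ ^ 2 ≤ (∑ s ∈ B, 1 * ‖ser (sec M s f) r θ‖) ^ 2 := by
            apply pow_le_pow_left₀ (norm_nonneg _)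
            simpa using norm_sum_le B (fun s => ser (sec M s f) r θ)
        _ ≤ (∑ s ∈ B, (1 : ℝ) ^ 2) * ∑ s ∈ B, ‖ser (sec M s f) r θ‖ ^ 2 :=
            Finset.sum_mul_sq_le_sq_mul_sq _ _ _
        _ = _ := by simp [hb]
  have h10 := bessel hr hf N
  refine h10.trans ?_
  rw [mul_assoc]
  apply mul_le_mul_of_nonneg_left _ (by have := Real.pi_pos; positivity)
  refine h9.trans ?_
  rw [mul_assoc]
  apply mul_le_mul_of_nonneg_left _ (by positivity)
  rw [Finset.sum_mul]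
  apply Finset.sum_le_sum
  intro s hs
  rw [mul_assoc]
  exact h8 s hs

end Pool.Agent.H397R2
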