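import Mathlib
import Pool.Agent.H397R2.Auto

namespace Pool.Agent.H397R2

open Pool.Agent.Helper605.CP Filter Topology

variable {α : Type*}

/-- If `c` is Collatz-invariant and constant on all dyadic blocks `[2^k m, 2^k (m+1))`, it is
constant. -/
lemma const_of_dyadic_blocks {c : ℕ → α} (h : CInv c) {m : ℕ} (hm : 1 ≤ m)
    (hblock' : ∀ k r, r < 2 ^ k → c (r + 2 ^ k * m) = c m) : ∀ n, 1 ≤ n → c n = c m := by
  -- all integers prime to `3`
  have hcop : ∀ n, 1 ≤ n → ¬ 3 ∣ n → c n = c m := by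
    intro n hn h3
    have hnpos : (0 : ℝ) < n := by exact_mod_cast hn
    have hmpos : (0 : ℝ) < m := by exact_mod_cast hm
    obtain ⟨j, q, h1, h2⟩ := exists_pow_between (K := 3) (by norm_num) (by
        intro a b ha hab
        have := pow_mult_indep (k := 3) (fun a h => by
          have h4 : (3 : ℕ) % 2 = 1 := rfl
          rw [h] at h4
          rcases Nat.eq_zero_or_pos a with h5 | h5
          · subst h5; norm_num at h
          · have : 2 ^ a % 2 = 0 := Nat.mod_eq_zero_of_dvd (dvd_pow_self 2 (by omega))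
            omega) (p := 1) le_rfl a b ha
        exact this (by simpa using hab))
      (x := (m : ℝ) / n) (y := ((m : ℝ) + 1) / n) (by positivity)
      (div_lt_div_of_pos_right (by linarith) hnpos)
    rw [div_mul_eq_mul_div, div_lt_iff₀ hnpos] at h1
    rw [div_mul_eq_mul_div, lt_div_iff₀ hnpos] at h2
    have h1' : m * 3 ^ q < 2 ^ j * n := by exact_mod_cast h1
    have h2' : 2 ^ j * n < (m + 1) * 3 ^ q := by exact_mod_cast h2
    obtain ⟨s, hs⟩ : ∃ s, 2 ^ j * n = 3 ^ q * m + s := ⟨2 ^ j * n - 3 ^ q * m, by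
      rw [mul_comm] at h1'; omega⟩
    have hs0 : 0 < s := by rw [mul_comm] at h1'; omega
    have hslt : s < 3 ^ q := by
      rw [add_mul, one_mul, mul_comm m] at h2'; omega
    have hq : q ≠ 0 := by
      rintro rfl
      simp at hslt; omega
    have h3s : ¬ 3 ∣ s := by
      intro h4
      have h5 : 3 ∣ 2 ^ j * n := by
        rw [hs]; exact dvd_add (Dvd.dvd.mul_right (dvd_pow_self 3 hq) m) h4
      rcases (Nat.Prime.dvd_mul Nat.prime_three).mp h5 with h6 | h6
      · have := Nat.Prime.dvd_of_dvd_pow Nat.prime_three h6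
        omega
      · exact h3 h6
    obtain ⟨K0, hK0⟩ := reach q s (Or.inr ⟨hslt, h3s⟩)
    obtain ⟨r, hr, horb⟩ := hK0 K0 le_rfl
    have e1 := hblock' K0 r hr
    have e2 := h.orb K0 (r + 2 ^ K0 * m)
    rw [orb_add, horb] at e2
    simp only at e2
    rw [← h.pow j n, hs, add_comm, e2, e1]
  intro n hn
  by_cases h3 : 3 ∣ n
  · obtain ⟨e, o, ho, rfl⟩ := Nat.exists_eq_two_pow_mul_odd (n := n) (by omega)
    obtain ⟨i, rfl⟩ := ho
    rw [h.pow, ← h.odd]
    exact hcop _ (by omega) (by omega)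
  · exact hcop n hn h3

/-- **Gap theorem.** If a Collatz-invariant `c` is constant on `[x, (1 + 1/m₀) x)` for arbitrarily
large `x`, it is constant on the positive integers. -/
theorem const_of_long_runs {c : ℕ → α} (h : CInv c) {m0 : ℕ} (hm0 : 1 ≤ m0)
    (H : ∀ X : ℕ, ∃ x, X ≤ x ∧ ∀ y, x ≤ y → m0 * y < (m0 + 1) * x → c y = c x) :
    ∀ n, 1 ≤ n → c n = c 1 := by
  classical
  -- dyadic blocks
  have h1 : ∀ k0 : ℕ, ∃ m, 1 ≤ m ∧ m ≤ 8 * m0 + 1 ∧ ∀ r, r < 2 ^ k0 → c (r + 2 ^ k0 * m) = c m := by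
    intro k0
    obtain ⟨x, hx, hxc⟩ := H (4 * m0 * 2 ^ k0)
    -- maximal `k'`
    have hex : ∃ k, x < 4 * m0 * 2 ^ (k + 1) := by
      obtain ⟨k, hk⟩ := exists_nat_gt x
      refine ⟨k, ?_⟩
      have h2 : k < 2 ^ (k + 1) := (Nat.lt_two_pow_self).trans_le
        (Nat.pow_le_pow_right (by norm_num) (by omega))
      calc x < k := by exact_mod_cast hk
        _ < 2 ^ (k + 1) := h2
        _ ≤ 4 * m0 * 2 ^ (k + 1) := Nat.le_mul_of_pos_left _ (by omega)
    set k' := Nat.find hex with hk'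
    have hk1 : x < 4 * m0 * 2 ^ (k' + 1) := Nat.find_spec hex
    have hk0 : k0 ≤ k' := by
      by_contra hcon
      have : 4 * m0 * 2 ^ (k' + 1) ≤ 4 * m0 * 2 ^ k0 :=
        Nat.mul_le_mul_left _ (Nat.pow_le_pow_right (by norm_num) (by omega))
      omega
    have hk2 : 4 * m0 * 2 ^ k' ≤ x := by
      rcases Nat.eq_zero_or_pos k' with h0 | h0
      · rw [h0]
        have : 4 * m0 * 2 ^ 0 ≤ 4 * m0 * 2 ^ k0 :=
          Nat.mul_le_mul_left _ (Nat.pow_le_pow_right (by norm_num) (by omega))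
        omega
      · have := Nat.find_min hex (m := k' - 1) (by omega)
        rw [show k' - 1 + 1 = k' by omega] at this
        omega
    set p := 2 ^ k' with hp
    have hppos : 0 < p := by positivity
    set m := x / p + 1 with hm
    have hmx : x < p * m := by
      rw [hm]; exact Nat.lt_mul_div_succ x hppos
    have hmx2 : p * m ≤ x + p := by
      rw [hm, mul_add, mul_one]
      have := Nat.mul_div_le x p
      omega
    have hmle : m ≤ 8 * m0 + 1 := by
      rw [pow_succ, ← hp] at hk1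
      have : x / p < 8 * m0 := by
        rw [Nat.div_lt_iff_lt_mul hppos]
        calc x < 4 * m0 * (p * 2) := hk1
          _ = 8 * m0 * p := by ring
      omega
    have hblock : ∀ r, r < p → c (r + p * m) = c (p * m) := by
      intro r hr
      have e1 : c (r + p * m) = c x := by
        apply hxc
        · omega
        · have : r + p * m < x + 2 * p := by omega
          nlinarith
      have e2 : c (p * m) = c x := by
        apply hxc
        · omega
        · have : p * m < x + 2 * p := by omega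
          nlinarith
      rw [e1, e2]
    refine ⟨m, Nat.le_add_left 1 _, hmle, fun r hr => ?_⟩
    have e3 : c (2 ^ (k' - k0) * (r + 2 ^ k0 * m)) = c (r + 2 ^ k0 * m) := h.pow _ _
    have e4 : 2 ^ (k' - k0) * (r + 2 ^ k0 * m) = 2 ^ (k' - k0) * r + p * m := by
      rw [mul_add, ← mul_assoc, ← pow_add, hp]; congr 3; omega
    rw [← e3, e4, hblock, hp, h.pow]
    calc 2 ^ (k' - k0) * r < 2 ^ (k' - k0) * 2 ^ k0 := Nat.mul_lt_mul_of_pos_left hr (by positivity)
      _ = p := by rw [← pow_add, hp]; congr 1; omega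
  -- pigeonhole
  obtain ⟨m, hm1, hm2⟩ : ∃ m, 1 ≤ m ∧ ∀ k r, r < 2 ^ k → c (r + 2 ^ k * m) = c m := by
    by_contra hcon
    push Not at hcon
    have h2 : ∀ m, ∃ k, 1 ≤ m → ∃ r, r < 2 ^ k ∧ c (r + 2 ^ k * m) ≠ c m := by
      intro m
      by_cases hm : 1 ≤ m
      · obtain ⟨k, r, hr⟩ := hcon m hm
        exact ⟨k, fun _ => ⟨r, hr⟩⟩
      · exact ⟨0, fun h => absurd h hm⟩
    choose kk hkk using h2
    set k0 := ∑ m ∈ Finset.range (8 * m0 + 2), kk m with hk0
    obtain ⟨m, hm1, hm2, hm3⟩ := h1 k0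
    have hle : kk m ≤ k0 := Finset.single_le_sum (f := kk) (fun _ _ => Nat.zero_le _)
      (Finset.mem_range.mpr (by omega))
    obtain ⟨r, hr, hne⟩ := hkk m hm1
    apply hne
    have e3 : c (2 ^ (k0 - kk m) * (r + 2 ^ kk m * m)) = c (r + 2 ^ kk m * m) := h.pow _ _
    have e4 : 2 ^ (k0 - kk m) * (r + 2 ^ kk m * m) = 2 ^ (k0 - kk m) * r + 2 ^ k0 * m := by
      rw [mul_add, ← mul_assoc, ← pow_add]; congr 3; omega
    rw [← e3, e4, hm3]
    calc 2 ^ (k0 - kk m) * r < 2 ^ (k0 - kk m) * 2 ^ kk m :=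
          Nat.mul_lt_mul_of_pos_left hr (by positivity)
      _ = 2 ^ k0 := by rw [← pow_add]; congr 1; omega
  intro n hn
  rw [const_of_dyadic_blocks h hm1 hm2 n hn, const_of_dyadic_blocks h hm1 hm2 1 le_rfl]

/-- Block lemma for `k`-regular sequences. -/
lemma exists_block_regular {R M : Type*} [Ring R] [IsNoetherianRing R] [AddCommGroup M]
    [Module R M] {c : ℕ → M} (h : CInv c) {k : ℕ} (hk : 2 ≤ k)
    (hfin : (Submodule.span R (kernel k c)).FG) :
    ∃ m : ℕ, 1 ≤ m ∧ ∀ l r : ℕ, r < k ^ l → c (k ^ l * m + r) = c (k ^ l * m) := by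
  classical
  by_contra hcon
  push Not at hcon
  -- every m has a bad place
  have hbad : ∀ m : ℕ, 1 ≤ m → ∃ l j : ℕ, j + 1 < k ^ l ∧
      c (k ^ l * m + j) ≠ c (k ^ l * m + (j + 1)) := by
    intro m hm
    obtain ⟨l, r, hr, hne⟩ := hcon m hm
    by_contra hcon2
    push Not at hcon2
    apply hne
    have : ∀ r, r < k ^ l → c (k ^ l * m + r) = c (k ^ l * m) := by
      intro r
      induction r with
      | zero => intro _; simp
      | succ r ih =>
        intro hr
        rw [← hcon2 l r hr]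
        exact ih (by omega)
    exact this r hr
  -- the set of differences
  set P : Set (ℕ → M) := {f | ∃ l j : ℕ, j + 1 < k ^ l ∧
    f = (fun n => c (k ^ l * n + j) - c (k ^ l * n + (j + 1)))} with hP
  have hPsub : Submodule.span R P ≤ Submodule.span R (kernel k c) := by
    rw [Submodule.span_le]
    rintro f ⟨l, j, hj, rfl⟩
    have h1 : (fun n => c (k ^ l * n + j)) ∈ Submodule.span R (kernel k c) :=
      Submodule.subset_span ⟨l, j, by omega, rfl⟩
    have h2 : (fun n => c (k ^ l * n + (j + 1))) ∈ Submodule.span R (kernel k c) :=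
      Submodule.subset_span ⟨l, j + 1, hj, rfl⟩
    exact Submodule.sub_mem _ h1 h2
  have hPfg : (Submodule.span R P).FG := Submodule.FG.of_le hfin hPsub
  obtain ⟨s, hsP, hs⟩ := (Submodule.fg_span_iff_fg_span_finset_subset P).mp hPfg
  have hchoose : ∀ f : s, ∃ lj : ℕ × ℕ, lj.2 + 1 < k ^ lj.1 ∧
    f.1 = (fun n => c (k ^ lj.1 * n + lj.2) - c (k ^ lj.1 * n + (lj.2 + 1))) := by
    rintro ⟨f, hf⟩
    obtain ⟨l, j, hj, h1⟩ := hsP hf
    exact ⟨(l, j), hj, h1⟩
  choose lj hlj1 hlj2 using hchoose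
  refine not_cover h.zd (fun f : s => k ^ (lj f).1) (fun f : s => (lj f).2)
    (fun f => Nat.one_le_pow _ _ (by omega)) ?_
  intro m hm
  by_contra hall
  push Not at hall
  obtain ⟨l, j, hj, hne⟩ := hbad m hm
  apply hne
  rw [← sub_eq_zero]
  -- evaluation at `m` kills the span
  have hker : Submodule.span R (s : Set (ℕ → M)) ≤ LinearMap.ker (LinearMap.proj (R := R)
      (φ := fun _ : ℕ => M) m) := by
    rw [Submodule.span_le]
    intro f hf
    have h1 := hall ⟨f, hf⟩
    have h2 : ¬ (c (k ^ (lj ⟨f, hf⟩).1 * m + (lj ⟨f, hf⟩).2) ≠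
      c (k ^ (lj ⟨f, hf⟩).1 * m + (lj ⟨f, hf⟩).2 + 1)) := h1
    push Not at h2
    have h3 := congrFun (hlj2 ⟨f, hf⟩) m
    show f m = 0
    rw [show f m = (⟨f, hf⟩ : s).1 m from rfl, h3, sub_eq_zero]
    exact h2
  have hmem : (fun n => c (k ^ l * n + j) - c (k ^ l * n + (j + 1))) ∈
      Submodule.span R (s : Set (ℕ → M)) := by
    rw [← hs]
    exact Submodule.subset_span ⟨l, j, hj, rfl⟩
  exact hker hmem

/-- **Main theorem.** A Collatz-invariant `k`-regular sequence (with values in a module over a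
Noetherian ring) is constant on the positive integers. -/
theorem const_of_regular {R M : Type*} [Ring R] [IsNoetherianRing R] [AddCommGroup M]
    [Module R M] {c : ℕ → M} (h : CInv c) {k : ℕ} (hk : 2 ≤ k)
    (hfin : (Submodule.span R (kernel k c)).FG) : ∀ n, 1 ≤ n → c n = c 1 := by
  obtain ⟨m, hm, hblock⟩ := exists_block_regular h hk hfin
  refine const_of_long_runs h hm (fun X => ⟨k ^ X * m, ?_, fun y hy1 hy2 => ?_⟩)
  · have : X < k ^ X := Nat.lt_pow_self (by omega)
    nlinarith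
  · obtain ⟨r, rfl⟩ : ∃ r, y = k ^ X * m + r := ⟨y - k ^ X * m, by omega⟩
    apply hblock
    have h1 : m * (k ^ X * m + r) < (m + 1) * (k ^ X * m) := hy2
    have h2 : m * r < m * k ^ X := by nlinarith
    exact lt_of_mul_lt_mul_left h2 (Nat.zero_le _)

end Pool.Agent.H397R2
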