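import Mathlib
import Pool.Agent.H397R2.Bad

namespace Pool.Agent.H397R2

open Pool.Agent.Helper605.CP Filter Topology

lemma e_step {e f : ℕ → ℂ} (hf : ∀ n : ℕ, f n = e (n + 1) - (n / (n + 1) : ℂ) * e n) {t n : ℕ}
    (htn : t ≤ n) : ‖e n‖ ≤ ‖e t‖ + ∑ i ∈ Finset.Ico t n, ‖f i‖ := by
  induction n, htn using Nat.le_induction with
  | base => simp
  | succ n hn ih =>
    rw [Finset.sum_Ico_succ_top hn]
    have h1 : e (n + 1) = f n + (n / (n + 1) : ℂ) * e n := by rw [hf]; ring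
    have h2 : ‖(n / (n + 1) : ℂ)‖ ≤ 1 := by
      have : (n / (n + 1) : ℂ) = ((n / (n + 1) : ℝ) : ℂ) := by push_cast; rfl
      rw [this, Complex.norm_real, Real.norm_eq_abs, abs_of_nonneg (by positivity),
        div_le_one (by positivity)]
      linarith
    calc ‖e (n + 1)‖ ≤ ‖f n‖ + ‖(n / (n + 1) : ℂ) * e n‖ := by rw [h1]; exact norm_add_le _ _
      _ ≤ ‖f n‖ + 1 * ‖e n‖ := by
          rw [norm_mul]
          gcongr
      _ ≤ _ := by linarith

lemma e_bound {e f : ℕ → ℂ} (hf : ∀ n : ℕ, f n = e (n + 1) - (n / (n + 1) : ℂ) * e n)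
    {M s0 : ℕ} (hs0 : s0 < M) (he : ∀ n, n % M = s0 → e n = 0) (n : ℕ) :
    ‖e n‖ ≤ ‖e 0‖ + ∑ i ∈ Finset.Ico (n - M) n, ‖f i‖ := by
  rcases lt_or_ge n M with hn | hn
  · rw [show n - M = 0 by omega]
    exact e_step hf (Nat.zero_le n)
  · set δ := (n + M - s0) % M with hδ
    have hδM : δ < M := Nat.mod_lt _ (by omega)
    obtain ⟨q, hq⟩ : ∃ q, n + M - s0 = M * q + δ := ⟨(n + M - s0) / M, (Nat.div_add_mod _ _).symm⟩
    have hq1 : 1 ≤ q := by
      rcases Nat.eq_zero_or_pos q with h0 | h0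
      · subst h0; omega
      · exact h0
    obtain ⟨q', rfl⟩ : ∃ q', q = q' + 1 := ⟨q - 1, by omega⟩
    rw [mul_add, mul_one] at hq
    have h1 : n - δ = s0 + M * q' := by omega
    have h2 : (n - δ) % M = s0 := by
      rw [h1, Nat.add_mul_mod_self_left, Nat.mod_eq_of_lt hs0]
    have h3 := e_step hf (Nat.sub_le n δ)
    rw [he _ h2, norm_zero, zero_add] at h3
    refine h3.trans ?_
    have h4 : ∑ i ∈ Finset.Ico (n - δ) n, ‖f i‖ ≤ ∑ i ∈ Finset.Ico (n - M) n, ‖f i‖ :=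
      Finset.sum_le_sum_of_subset_of_nonneg (Finset.Ico_subset_Ico (by omega) le_rfl)
        (fun _ _ _ => norm_nonneg _)
    have := norm_nonneg (e 0)
    linarith

lemma e_sum {e f : ℕ → ℂ} (hf : ∀ n : ℕ, f n = e (n + 1) - (n / (n + 1) : ℂ) * e n)
    {M s0 : ℕ} (hs0 : s0 < M) (he : ∀ n, n % M = s0 → e n = 0) (N : ℕ) :
    ∑ n ∈ Finset.range N, ‖e n‖ ^ 2 ≤
      2 * N * ‖e 0‖ ^ 2 + 2 * (M : ℝ) ^ 2 * ∑ n ∈ Finset.range N, ‖f n‖ ^ 2 := by
  classical
  have h1 : ∀ n, ‖e n‖ ^ 2 ≤ 2 * ‖e 0‖ ^ 2 + 2 * M * ∑ i ∈ Finset.Ico (n - M) n, ‖f i‖ ^ 2 := by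
    intro n
    have h2 := e_bound hf hs0 he n
    have h3 : (∑ i ∈ Finset.Ico (n - M) n, ‖f i‖) ^ 2 ≤
        M * ∑ i ∈ Finset.Ico (n - M) n, ‖f i‖ ^ 2 := by
      have h4 := Finset.sum_mul_sq_le_sq_mul_sq (Finset.Ico (n - M) n) (fun _ => (1 : ℝ))
        (fun i => ‖f i‖)
      simp only [one_mul, one_pow, Finset.sum_const, Nat.card_Ico, nsmul_eq_mul, mul_one] at h4
      refine h4.trans ?_
      apply mul_le_mul_of_nonneg_right _ (by positivity)
      exact_mod_cast (by omega : n - (n - M) ≤ M)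
    have h5 : 0 ≤ ∑ i ∈ Finset.Ico (n - M) n, ‖f i‖ := by positivity
    have h6 := norm_nonneg (e n)
    have h7 := norm_nonneg (e 0)
    calc ‖e n‖ ^ 2 ≤ (‖e 0‖ + ∑ i ∈ Finset.Ico (n - M) n, ‖f i‖) ^ 2 := by
          apply pow_le_pow_left₀ h6 h2
      _ ≤ 2 * ‖e 0‖ ^ 2 + 2 * (∑ i ∈ Finset.Ico (n - M) n, ‖f i‖) ^ 2 := by
          nlinarith [sq_nonneg (‖e 0‖ - ∑ i ∈ Finset.Ico (n - M) n, ‖f i‖)]
      _ ≤ _ := by nlinarith
  have h2 : ∑ n ∈ Finset.range N, ∑ i ∈ Finset.Ico (n - M) n, ‖f i‖ ^ 2 ≤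
      M * ∑ n ∈ Finset.range N, ‖f n‖ ^ 2 := by
    rw [Finset.sum_comm' (s' := fun i => (Finset.range N).filter (fun n => n - M ≤ i ∧ i < n))
      (t' := Finset.range N)]
    · rw [Finset.mul_sum]
      apply Finset.sum_le_sum
      intro i _
      rw [Finset.sum_const, nsmul_eq_mul]
      apply mul_le_mul_of_nonneg_right _ (by positivity)
      have : (Finset.range N).filter (fun n => n - M ≤ i ∧ i < n) ⊆ Finset.Ioc i (i + M) := by
        intro n hn
        simp only [Finset.mem_filter, Finset.mem_range] at hn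
        rw [Finset.mem_Ioc]; omega
      have h3 := Finset.card_le_card this
      rw [Nat.card_Ioc] at h3
      exact_mod_cast (by omega :
        ((Finset.range N).filter (fun n => n - M ≤ i ∧ i < n)).card ≤ M)
    · intro n i
      simp only [Finset.mem_range, Finset.mem_Ico, Finset.mem_filter]
      omega
  calc ∑ n ∈ Finset.range N, ‖e n‖ ^ 2 ≤ ∑ n ∈ Finset.range N,
        (2 * ‖e 0‖ ^ 2 + 2 * M * ∑ i ∈ Finset.Ico (n - M) n, ‖f i‖ ^ 2) :=
          Finset.sum_le_sum (fun n _ => h1 n)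
    _ = 2 * N * ‖e 0‖ ^ 2 +
        2 * M * ∑ n ∈ Finset.range N, ∑ i ∈ Finset.Ico (n - M) n, ‖f i‖ ^ 2 := by
          rw [Finset.sum_add_distrib, Finset.sum_const, Finset.card_range, nsmul_eq_mul,
            Finset.mul_sum]
          ring
    _ ≤ 2 * N * ‖e 0‖ ^ 2 + 2 * M * (M * ∑ n ∈ Finset.range N, ‖f n‖ ^ 2) := by
          gcongr
    _ = _ := by ring

/-- for radii near `1`: an index `N` with `N` comparable to `1/(1-r)` -/
lemma exists_index {P : ℝ → Prop} (H : ∃ᶠ r in 𝓝[<] (1 : ℝ), P r) (N0 : ℕ) :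
    ∃ r N, P r ∧ 0 ≤ r ∧ r < 1 ∧ N0 ≤ N ∧ 1 ≤ N ∧ 1 / (1 - r) ≤ 4 * (N : ℝ) ∧
      ∀ n : ℕ, n < N → (1 : ℝ) / 4 ≤ r ^ (2 * n) := by
  have h1 : ∀ᶠ r in 𝓝[<] (1 : ℝ), 1 - 1 / (2 * ((N0 : ℝ) + 1)) < r ∧ r < 1 := by
    apply Filter.Eventually.and
    · apply nhdsWithin_le_nhds
      apply lt_mem_nhds
      have : (0 : ℝ) < 1 / (2 * ((N0 : ℝ) + 1)) := by positivity
      linarith
    · exact self_mem_nhdsWithin
  obtain ⟨r, hP, hr1, hr2⟩ := (H.and_eventually h1).exists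
  have hpos : 0 < 1 - r := by linarith
  have hN0 : (0 : ℝ) ≤ N0 := Nat.cast_nonneg _
  have hr0 : 0 ≤ r := by
    have : 1 / (2 * ((N0 : ℝ) + 1)) ≤ 1 := by
      rw [div_le_one (by positivity)]; linarith
    linarith
  set N := ⌊1 / (2 * (1 - r))⌋₊ with hN
  have hfl1 : (N : ℝ) ≤ 1 / (2 * (1 - r)) := Nat.floor_le (by positivity)
  have hfl2 : 1 / (2 * (1 - r)) < N + 1 := Nat.lt_floor_add_one _
  have h2 : (N0 : ℝ) + 1 < 1 / (2 * (1 - r)) := by
    rw [lt_div_iff₀ (by positivity)]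
    have h3 : 1 - r < 1 / (2 * ((N0 : ℝ) + 1)) := by linarith
    rw [lt_div_iff₀ (by positivity)] at h3
    linarith
  have h4 : N0 + 1 ≤ N := by
    apply Nat.le_floor
    push_cast
    exact h2.le
  refine ⟨r, N, hP, hr0, hr2, by omega, by omega, ?_, ?_⟩
  · have h5 : (1 : ℝ) ≤ N := by exact_mod_cast (by omega : 1 ≤ N)
    have h6 : 1 / (1 - r) = 2 * (1 / (2 * (1 - r))) := by field_simp
    rw [h6]
    linarith
  · intro n hn
    have h5 : (n : ℝ) * (1 - r) ≤ 1 / 2 := by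
      have h6 : (n : ℝ) ≤ 1 / (2 * (1 - r)) := by
        have : (n : ℝ) ≤ N := by exact_mod_cast hn.le
        linarith
      rw [le_div_iff₀ (by positivity)] at h6
      linarith
    have h7 : (1 : ℝ) / 2 ≤ r ^ n := by
      have h8 := one_add_mul_le_pow (a := -(1 - r)) (by linarith) n
      have h9 : (1 + -(1 - r)) = r := by ring
      rw [h9] at h8
      linarith
    calc (1 : ℝ) / 4 = (1 / 2) ^ 2 := by norm_num
      _ ≤ (r ^ n) ^ 2 := pow_le_pow_left₀ (by norm_num) h7 2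
      _ = r ^ (2 * n) := by rw [← pow_mul, mul_comm]

/-- second-order coefficients -/
def F2 (c : ℕ → ℂ) (n : ℕ) : ℂ := (n + 2) * c (n + 2) - 2 * (n + 1) * c (n + 1) + n * c n

theorem const_of_local_L2 {c : ℕ → ℂ} (hc : CInv c) {α β C : ℝ} (hαβ : α < β)
    (hsum : ∀ r : ℝ, 0 ≤ r → r < 1 → Summable fun n => ‖F2 c n‖ * r ^ n)
    (H : ∃ᶠ r in 𝓝[<] (1 : ℝ), (1 - r) * ∫ θ in α..β, ‖ser (F2 c) r θ‖ ^ 2 ≤ C) :
    ∀ n, 1 ≤ n → c n = c 1 := by
  classical
  -- choice of the modulus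
  obtain ⟨k, _, hk⟩ := exists_bad_small (ε := min 1 ((β - α) / (4 * Real.pi))) (by
    rw [lt_min_iff]
    have := Real.pi_pos
    exact ⟨one_pos, div_pos (by linarith) (by positivity)⟩)
  set M := 2 ^ k with hM
  have hMpos : 0 < M := by positivity
  have hMr : (0 : ℝ) < M := by exact_mod_cast hMpos
  have hk1 : ((Bad k).card : ℝ) < M := by
    refine hk.trans_le ?_
    rw [hM]; push_cast
    calc min 1 ((β - α) / (4 * Real.pi)) * 2 ^ k ≤ 1 * 2 ^ k := by
          apply mul_le_mul_of_nonneg_right (min_le_left _ _) (by positivity)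
      _ = 2 ^ k := one_mul _
  have hk2 : ((Bad k).card : ℝ) ≤ (β - α) / (4 * Real.pi) * M := by
    refine hk.le.trans ?_
    rw [hM]; push_cast
    apply mul_le_mul_of_nonneg_right (min_le_right _ _) (by positivity)
  obtain ⟨s0, hs0, hs0'⟩ : ∃ s0 < M, s0 ∉ Bad k := by
    by_contra hcon
    push Not at hcon
    have : Finset.range M ⊆ Bad k := fun s hs => hcon s (Finset.mem_range.mp hs)
    have h2 := Finset.card_le_card this
    rw [Finset.card_range] at h2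
    have h3 : (M : ℝ) ≤ (Bad k).card := by exact_mod_cast h2
    linarith
  -- the set of residues
  set B : Finset ℕ := (Finset.range M).filter (fun s => s ∈ Bad k ∨ (s + 1) % M ∈ Bad k) with hB
  have hBM : ∀ s ∈ B, s < M := by
    intro s hs
    rw [hB, Finset.mem_filter, Finset.mem_range] at hs
    exact hs.1
  have hBcard : B.card ≤ 2 * (Bad k).card := by
    have h1 : B ⊆ Bad k ∪ (Bad k).image (fun t => (t + (M - 1)) % M) := by
      intro s hs
      rw [hB, Finset.mem_filter, Finset.mem_range] at hs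
      rw [Finset.mem_union, Finset.mem_image]
      rcases hs with ⟨hsM, h | h⟩
      · exact Or.inl h
      · refine Or.inr ⟨(s + 1) % M, h, ?_⟩
        rw [Nat.mod_add_mod, show s + 1 + (M - 1) = s + M by omega, Nat.add_mod_right,
          Nat.mod_eq_of_lt hsM]
    have h2 := Finset.card_le_card h1
    have h3 := Finset.card_union_le (Bad k) ((Bad k).image (fun t => (t + (M - 1)) % M))
    have h4 := Finset.card_image_le (s := Bad k) (f := fun t => (t + (M - 1)) % M)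
    omega
  have hBαβ : B.card * (2 * Real.pi / M) ≤ β - α := by
    have h1 : (B.card : ℝ) ≤ 2 * (Bad k).card := by exact_mod_cast hBcard
    have hpi := Real.pi_pos
    calc (B.card : ℝ) * (2 * Real.pi / M) ≤ (2 * ((β - α) / (4 * Real.pi) * M)) *
          (2 * Real.pi / M) := by
          apply mul_le_mul_of_nonneg_right _ (by positivity)
          linarith
      _ = β - α := by field_simp; ring
  obtain ⟨K, hK0, hK⟩ := local_bound hMpos B hBM hBαβ
  -- vanishing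
  have hD : ∀ n, n % M ∉ Bad k → c (n + 1) = c n := fun n hn => (good_eq hc hn).symm
  have hF2 : ∀ n, n % M ∉ B → F2 c n = 0 := by
    intro n hn
    rw [hB, Finset.mem_filter, Finset.mem_range] at hn
    have h1 : n % M ∉ Bad k ∧ (n % M + 1) % M ∉ Bad k := by
      constructor
      · intro h; exact hn ⟨Nat.mod_lt _ hMpos, Or.inl h⟩
      · intro h; exact hn ⟨Nat.mod_lt _ hMpos, Or.inr h⟩
    have h2 := hD n h1.1
    have h3 := hD (n + 1) (by rw [← Nat.mod_add_mod]; exact h1.2)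
    have h4 : c (n + 2) = c n := by rw [show n + 2 = n + 1 + 1 from rfl, h3, h2]
    simp only [F2]
    rw [h4, h2]; ring
  -- first differences
  set e : ℕ → ℂ := fun n => ((n : ℂ) + 1) * (c (n + 1) - c n) with he
  have hef : ∀ n : ℕ, F2 c n = e (n + 1) - (n / (n + 1) : ℂ) * e n := by
    intro n
    have : (n : ℂ) + 1 ≠ 0 := by exact_mod_cast Nat.succ_ne_zero n
    simp only [F2, he]
    push_cast
    field_simp
    ring
  have he0 : ∀ n, n % M = s0 → e n = 0 := by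
    intro n hn
    have := hD n (by rw [hn]; exact hs0')
    simp [he, this]
  -- the window hypothesis
  apply const_of_window hc (C := 2 * ‖e 0‖ ^ 2 + 2 * (M : ℝ) ^ 2 * (16 * K * |C|))
  intro N0
  obtain ⟨r, N, hP, hr0, hr1, hN0, hN1, hrN, hrn⟩ := exists_index H N0
  refine ⟨N, hN0, ?_⟩
  have h1 := hK (F2 c) r hr0 (hsum r hr0 hr1) hF2 N
  have hpos : 0 < 1 - r := by linarith
  have h2 : ∫ θ in α..β, ‖ser (F2 c) r θ‖ ^ 2 ≤ |C| * (1 / (1 - r)) := by
    rw [mul_one_div, le_div_iff₀ hpos, mul_comm]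
    exact hP.trans (le_abs_self C)
  have h3 : ∑ n ∈ Finset.range N, ‖F2 c n‖ ^ 2 ≤ 16 * K * |C| * N := by
    have h4 : ∑ n ∈ Finset.range N, ‖F2 c n‖ ^ 2 ≤
        4 * ∑ n ∈ Finset.range N, ‖F2 c n‖ ^ 2 * r ^ (2 * n) := by
      rw [Finset.mul_sum]
      apply Finset.sum_le_sum
      intro n hn
      have := hrn n (Finset.mem_range.mp hn)
      have h5 : 0 ≤ ‖F2 c n‖ ^ 2 := by positivity
      nlinarith
    calc ∑ n ∈ Finset.range N, ‖F2 c n‖ ^ 2 ≤ 4 * (K * (|C| * (1 / (1 - r)))) := by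
          refine h4.trans ?_
          gcongr
          exact h1.trans (mul_le_mul_of_nonneg_left h2 hK0)
      _ ≤ 4 * (K * (|C| * (4 * N))) := by
          gcongr
      _ = _ := by ring
  have h6 := e_sum hef hs0 he0 N
  have h7 : ∑ n ∈ Finset.range N, (((n : ℝ) + 1) * ‖c (n + 1) - c n‖) ^ 2 =
      ∑ n ∈ Finset.range N, ‖e n‖ ^ 2 := by
    apply Finset.sum_congr rfl
    intro n _
    simp only [he]
    rw [norm_mul]
    have : ‖(n : ℂ) + 1‖ = (n : ℝ) + 1 := by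
      have h8 : ((n : ℂ) + 1) = (((n : ℝ) + 1 : ℝ) : ℂ) := by push_cast; rfl
      rw [h8, Complex.norm_real, Real.norm_eq_abs, abs_of_nonneg (by positivity)]
    rw [this]
  rw [h7]
  refine h6.trans ?_
  have : 2 * (M : ℝ) ^ 2 * ∑ n ∈ Finset.range N, ‖F2 c n‖ ^ 2 ≤
      2 * (M : ℝ) ^ 2 * (16 * K * |C| * N) := mul_le_mul_of_nonneg_left h3 (by positivity)
  linarith

end Pool.Agent.H397R2
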