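import Mathlib
import Pool.Agent.H397R2.Dir

namespace Pool.Agent.H397R2

open Pool.Agent.Helper605.CP Filter Topology

lemma hs_congr {f g : ℕ → ℂ} {a : ℂ} (hg : HasSum g a) (h : ∀ n, f n = g n) : HasSum f a := by
  have : f = g := funext h
  rw [this]; exact hg

/-- Taylor coefficients at `0` -/
noncomputable def tc (h : ℂ → ℂ) (n : ℕ) : ℂ := (n.factorial : ℂ)⁻¹ * iteratedDeriv n h 0

lemma hasSum_tc {h : ℂ → ℂ} (hd : DifferentiableOn ℂ h (Metric.ball 0 1)) {z : ℂ}
    (hz : ‖z‖ < 1) : HasSum (fun n => tc h n * z ^ n) (h z) := by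
  have h1 := Complex.hasSum_taylorSeries_on_ball hd (z := z) (by simpa using hz)
  refine hs_congr h1 (fun n => ?_)
  simp only [tc, smul_eq_mul, sub_zero]
  ring

lemma tc_deriv (h : ℂ → ℂ) (n : ℕ) : tc (deriv h) n = (n + 1) * tc h (n + 1) := by
  simp only [tc]
  rw [iteratedDeriv_succ', Nat.factorial_succ]
  have : ((n : ℂ) + 1) ≠ 0 := by exact_mod_cast Nat.succ_ne_zero n
  have h2 : (n.factorial : ℂ) ≠ 0 := by exact_mod_cast n.factorial_ne_zero
  push_cast
  field_simp

lemma hasSum_deriv {h : ℂ → ℂ} (hd : DifferentiableOn ℂ h (Metric.ball 0 1)) {z : ℂ}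
    (hz : ‖z‖ < 1) : HasSum (fun n : ℕ => ((n : ℂ) + 1) * tc h (n + 1) * z ^ n) (deriv h z) := by
  have h1 := hasSum_tc (hd.deriv Metric.isOpen_ball) hz
  simpa only [tc_deriv] using h1

lemma coeff_zero {e : ℕ → ℂ} (he : ∀ w : ℂ, w ≠ 0 → ‖w‖ < 1 → HasSum (fun n => e n * w ^ n) 0) :
    ∀ n, e n = 0 := by
  have hr : (0 : ℝ) ≤ 1 / 2 := by norm_num
  have hcp : ∀ θ, cp (1 / 2) θ ≠ 0 ∧ ‖cp (1 / 2) θ‖ < 1 := by
    intro θ
    have h1 := norm_cp hr θ
    constructor
    · intro h0; rw [h0, norm_zero] at h1; norm_num at h1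
    · rw [h1]; norm_num
  have hsum : Summable fun n => ‖e n‖ * (1 / 2 : ℝ) ^ n := by
    have h1 := (he _ (hcp 0).1 (hcp 0).2).summable.norm
    simpa only [norm_term hr] using h1
  intro n
  have h2 := bessel hr hsum (n + 1)
  have h3 : ∀ θ, ser e (1 / 2) θ = 0 := fun θ =>
    (hasSum_ser hr hsum θ).unique (he _ (hcp θ).1 (hcp θ).2)
  simp only [h3, norm_zero, ne_eq, OfNat.ofNat_ne_zero, not_false_eq_true, zero_pow,
    intervalIntegral.integral_zero, mul_zero] at h2
  have h4 : ‖e n‖ ^ 2 * (1 / 2 : ℝ) ^ (2 * n) ≤ 0 := by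
    refine le_trans ?_ h2
    exact Finset.single_le_sum (f := fun n => ‖e n‖ ^ 2 * (1 / 2 : ℝ) ^ (2 * n))
      (fun i _ => by positivity) (Finset.mem_range.mpr (Nat.lt_succ_self n))
  have h5 : ‖e n‖ ^ 2 ≤ 0 := by
    have h6 : (0 : ℝ) < (1 / 2) ^ (2 * n) := by positivity
    by_contra hcon
    push Not at hcon
    have := mul_pos hcon h6
    linarith
  have h7 : ‖e n‖ = 0 := pow_eq_zero_iff (n := 2) (by norm_num) |>.mp
    (le_antisymm h5 (sq_nonneg _))
  exact norm_eq_zero.mp h7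

/-- the cube root of unity -/
noncomputable def om : ℂ := Complex.exp (2 * Real.pi * Complex.I / 3)

lemma om_prim : IsPrimitiveRoot om 3 := by
  have := Complex.isPrimitiveRoot_exp 3 (by norm_num)
  simpa [om] using this

lemma om_cube : om ^ 3 = 1 := om_prim.pow_eq_one

lemma om_sum : 1 + om + om ^ 2 = 0 := by
  have := om_prim.geom_sum_eq_zero (by norm_num)
  simpa [Finset.sum_range_succ] using this

lemma om_factor (n : ℕ) : 1 + om ^ (n + 1) + om ^ (2 * n + 2) = if n % 3 = 2 then 3 else 0 := by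
  have h1 : n % 3 = 0 ∨ n % 3 = 1 ∨ n % 3 = 2 := by omega
  have h3 := om_cube
  rcases h1 with h | h | h
  · obtain ⟨m, rfl⟩ : ∃ m, n = 3 * m := ⟨n / 3, by omega⟩
    rw [if_neg (by omega)]
    have e1 : om ^ (3 * m + 1) = om := by rw [pow_succ, pow_mul, h3, one_pow, one_mul]
    have e2 : om ^ (2 * (3 * m) + 2) = om ^ 2 := by
      rw [show 2 * (3 * m) + 2 = 3 * (2 * m) + 2 by ring, pow_add, pow_mul, h3, one_pow, one_mul]
    rw [e1, e2]; exact om_sum
  · obtain ⟨m, rfl⟩ : ∃ m, n = 3 * m + 1 := ⟨n / 3, by omega⟩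
    rw [if_neg (by omega)]
    have e1 : om ^ (3 * m + 1 + 1) = om ^ 2 := by
      rw [show 3 * m + 1 + 1 = 3 * m + 2 by ring, pow_add, pow_mul, h3, one_pow, one_mul]
    have e2 : om ^ (2 * (3 * m + 1) + 2) = om := by
      rw [show 2 * (3 * m + 1) + 2 = 3 * (2 * m + 1) + 1 by ring, pow_add, pow_mul, h3, one_pow,
        one_mul, pow_one]
    rw [e1, e2]
    have := om_sum
    linear_combination this
  · obtain ⟨m, rfl⟩ : ∃ m, n = 3 * m + 2 := ⟨n / 3, by omega⟩
    rw [if_pos (by omega)]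
    have e1 : om ^ (3 * m + 2 + 1) = 1 := by
      rw [show 3 * m + 2 + 1 = 3 * (m + 1) by ring, pow_mul, h3, one_pow]
    have e2 : om ^ (2 * (3 * m + 2) + 2) = 1 := by
      rw [show 2 * (3 * m + 2) + 2 = 3 * (2 * m + 2) by ring, pow_mul, h3, one_pow]
    rw [e1, e2]; norm_num

/-- the Berg-Meinardus equation for the Taylor coefficients -/
lemma cinv_of_bm {h : ℂ → ℂ} {c : ℕ → ℂ}
    (hs : ∀ z : ℂ, ‖z‖ < 1 → HasSum (fun n => c n * z ^ n) (h z))
    (hfe : ∀ z : ℂ, ‖z‖ < 1 → 3 * z * (h (z ^ 3) - h (z ^ 6)) =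
      h (z ^ 2) + om * h (om * z ^ 2) + om ^ 2 * h (om ^ 2 * z ^ 2)) : CInv c := by
  set e' : ℕ → ℂ := fun n => if n % 2 = 0 then c (n / 2) else c ((3 * n + 1) / 2) with he'
  have key : ∀ n, c n - e' n = 0 := by
    apply coeff_zero
    intro w hw0 hw1
    obtain ⟨z, hz⟩ := IsAlgClosed.exists_pow_nat_eq w (n := 3) (by norm_num)
    have hz0 : z ≠ 0 := by
      rintro rfl
      apply hw0; rw [← hz]; norm_num
    have hz1 : ‖z‖ < 1 := by
      by_contra hcon
      push Not at hcon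
      have : 1 ≤ ‖w‖ := by
        rw [← hz, norm_pow]; exact one_le_pow₀ hcon
      linarith
    have hpow : ∀ k : ℕ, k ≠ 0 → ‖z ^ k‖ < 1 := fun k hk => by
      rw [norm_pow]; exact pow_lt_one₀ (norm_nonneg _) hz1 hk
    have hom : ‖om‖ = 1 := om_prim.norm'_eq_one (by norm_num)
    have s1 := hs (z ^ 3) (hpow 3 (by norm_num))
    have s2 := hs (z ^ 6) (hpow 6 (by norm_num))
    have s3 := hs (z ^ 2) (hpow 2 (by norm_num))
    have s4 := (hs (om * z ^ 2) (by
      rw [norm_mul, hom, one_mul]; exact hpow 2 (by norm_num))).mul_left om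
    have s5 := (hs (om ^ 2 * z ^ 2) (by
      rw [norm_mul, norm_pow, hom, one_pow, one_mul]; exact hpow 2 (by norm_num))).mul_left (om ^ 2)
    have s6 := (s3.add s4).add s5
    rw [← hfe z hz1] at s6
    have e1 : (fun n => c n * (z ^ 2) ^ n + om * (c n * (om * z ^ 2) ^ n) +
        om ^ 2 * (c n * (om ^ 2 * z ^ 2) ^ n)) =
        fun n => c n * (if n % 3 = 2 then 3 else 0) * z ^ (2 * n) := by
      ext n
      rw [← om_factor n, mul_pow, mul_pow, ← pow_mul, ← pow_mul, show 2 * n + 2 = 2 * n + 1 + 1 by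
        ring]
      ring
    rw [e1] at s6
    have hinj : Function.Injective (fun m : ℕ => 3 * m + 2) := fun a b hab => by
      simp only at hab; omega
    rw [← hinj.hasSum_iff (f := fun n => c n * (if n % 3 = 2 then (3 : ℂ) else 0) * z ^ (2 * n))
      (by
        intro n hn
        rw [if_neg]
        · ring
        · intro h3
          exact hn ⟨n / 3, by simp only; omega⟩)] at s6
    -- odd part
    have s7 : HasSum (fun m : ℕ => e' (2 * m + 1) * w ^ (2 * m + 1)) (h (z ^ 3) - h (z ^ 6)) := by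
      have h3z : (3 * z) ≠ 0 := mul_ne_zero (by norm_num) hz0
      have h8 := s6.mul_left (3 * z)⁻¹
      rw [← mul_assoc, inv_mul_cancel₀ h3z, one_mul] at h8
      refine hs_congr h8 (fun m => ?_)
      simp only [Function.comp, he']
      rw [if_neg (by omega), if_pos (by omega), show (3 * (2 * m + 1) + 1) / 2 = 3 * m + 2 by omega,
        ← hz, ← pow_mul, show 2 * (3 * m + 2) = 3 * (2 * m + 1) + 1 by ring, pow_succ z]
      field_simp
    have s8 : HasSum (fun m : ℕ => e' (2 * m) * w ^ (2 * m)) (h (z ^ 6)) := by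
      refine hs_congr s2 (fun m => ?_)
      simp only [he']
      rw [if_pos (by omega), show 2 * m / 2 = m by omega, ← hz, ← pow_mul, ← pow_mul]
      congr 2; ring
    have s9 := HasSum.even_add_odd (f := fun n => e' n * w ^ n) s8 s7
    have s10 : HasSum (fun n => c n * w ^ n) (h (z ^ 3)) := by rw [← hz]; exact s1
    have s11 := s10.sub s9
    rw [show h (z ^ 3) - (h (z ^ 6) + (h (z ^ 3) - h (z ^ 6))) = 0 by ring] at s11
    refine hs_congr s11 (fun n => ?_)
    ring
  constructor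
  · intro n
    have := key (2 * n)
    simp only [he'] at this
    rw [if_pos (by omega), show 2 * n / 2 = n by omega, sub_eq_zero] at this
    exact this
  · intro n
    have := key (2 * n + 1)
    simp only [he'] at this
    rw [if_neg (by omega), show (3 * (2 * n + 1) + 1) / 2 = 3 * n + 2 by omega, sub_eq_zero] at this
    exact this.symm

end Pool.Agent.H397R2
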