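import Mathlib

open Finset

namespace Pool.Agent.H397R2.NS

/-- Number of squares modulo `d`. -/
noncomputable def Q (d : ℕ) : ℕ := (Set.range (fun x : ZMod d => x ^ 2)).ncard

lemma Q_mul {m n : ℕ} (hm : m ≠ 0) (hn : n ≠ 0) (h : m.Coprime n) : Q (m * n) ≤ Q m * Q n := by
  have : NeZero m := ⟨hm⟩
  have : NeZero n := ⟨hn⟩
  have : NeZero (m * n) := ⟨Nat.mul_ne_zero hm hn⟩
  let e := ZMod.chineseRemainder h
  unfold Q
  rw [← Set.ncard_prod, ← Set.ncard_image_of_injective _ e.injective]
  refine Set.ncard_le_ncard ?_ (Set.toFinite _)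
  rintro _ ⟨_, ⟨x, rfl⟩, rfl⟩
  refine Set.mem_prod.mpr ⟨⟨(e x).1, ?_⟩, ⟨(e x).2, ?_⟩⟩
  · simp
  · simp

lemma Q_prime {p : ℕ} (h5 : 5 ≤ p) (ho : p % 2 = 1) : 5 * Q p ≤ 3 * p := by
  have : NeZero p := ⟨by omega⟩
  have h1 : (Set.range (fun x : ZMod p => x ^ 2)) ⊆
      ((Finset.range ((p + 1) / 2)).image (fun k : ℕ => ((k : ZMod p)) ^ 2) : Finset (ZMod p)) := by
    rintro _ ⟨x, rfl⟩
    rw [Finset.mem_coe, Finset.mem_image]
    by_cases hx : x.val < (p + 1) / 2
    · exact ⟨x.val, Finset.mem_range.mpr hx, by simp⟩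
    · refine ⟨p - x.val, Finset.mem_range.mpr ?_, ?_⟩
      · have := ZMod.val_lt x
        omega
      · have hlt := (ZMod.val_lt x).le
        rw [Nat.cast_sub hlt]
        simp
  have h2 : Q p ≤ (p + 1) / 2 := by
    unfold Q
    refine (Set.ncard_le_ncard h1 (Finset.finite_toSet _)).trans ?_
    rw [Set.ncard_coe_finset]
    exact Finset.card_image_le.trans (by simp)
  omega

lemma Q_one : Q 1 = 1 := by
  unfold Q
  have : (Set.range (fun x : ZMod 1 => x ^ 2)) = {0} := by
    ext y
    simp only [Set.mem_range, Set.mem_singleton_iff]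
    exact ⟨fun _ => Subsingleton.elim _ _, fun _ => ⟨0, Subsingleton.elim _ _⟩⟩
  rw [this, Set.ncard_singleton]

/-- A product of distinct primes `≥ 5` has few squares. -/
lemma Q_prod (P : Finset ℕ) (hP : ∀ p ∈ P, p.Prime ∧ 5 ≤ p) :
    5 ^ P.card * Q (∏ p ∈ P, p) ≤ 3 ^ P.card * ∏ p ∈ P, p := by
  classical
  induction P using Finset.induction_on with
  | empty => simp [Q_one]
  | insert p P hp ih =>
    have ih' := ih fun q hq => hP q (Finset.mem_insert_of_mem hq)
    obtain ⟨hpp, hp5⟩ := hP p (Finset.mem_insert_self _ _)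
    have hodd : p % 2 = 1 := by
      rcases hpp.eq_two_or_odd with h | h
      · omega
      · exact h
    rw [Finset.card_insert_of_notMem hp, Finset.prod_insert hp]
    have hne : (∏ q ∈ P, q) ≠ 0 :=
      Finset.prod_ne_zero_iff.mpr fun q hq => (hP q (Finset.mem_insert_of_mem hq)).1.ne_zero
    have hcop : p.Coprime (∏ q ∈ P, q) := by
      refine Nat.Coprime.prod_right fun q hq => ?_
      refine (Nat.coprime_primes hpp (hP q (Finset.mem_insert_of_mem hq)).1).mpr ?_
      rintro rfl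
      exact hp hq
    have h1 := Q_mul hpp.ne_zero hne hcop
    have h2 := Q_prime hp5 hodd
    calc 5 ^ (P.card + 1) * Q (p * ∏ q ∈ P, q)
        ≤ 5 ^ (P.card + 1) * (Q p * Q (∏ q ∈ P, q)) := Nat.mul_le_mul_left _ h1
      _ = (5 * Q p) * (5 ^ P.card * Q (∏ q ∈ P, q)) := by ring
      _ ≤ (3 * p) * (3 ^ P.card * ∏ q ∈ P, q) := Nat.mul_le_mul h2 ih'
      _ = 3 ^ (P.card + 1) * (p * ∏ q ∈ P, q) := by ring

/-- The data of one modulus: odd, squarefree, with a square root of `-1`. -/
structure Good (d : ℕ) : Prop where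
  five : 5 ≤ d
  odd : d % 2 = 1
  sqf : Squarefree d
  root : ∃ i : ZMod d, i ^ 2 = -1

lemma good_prod (P : Finset ℕ) (hne : P.Nonempty) (hP : ∀ p ∈ P, p.Prime ∧ p % 4 = 1) :
    Good (∏ p ∈ P, p) := by
  classical
  have hsq : Squarefree (∏ p ∈ P, p) := by
    refine Finset.squarefree_prod_of_pairwise_isCoprime (f := fun p => p) ?_ ?_
    · intro p hp q hq hpq
      exact Nat.coprime_iff_isRelPrime.mp ((Nat.coprime_primes (hP p hp).1 (hP q hq).1).mpr hpq)
    · intro p hp
      exact (hP p hp).1.squarefree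
  refine ⟨?_, ?_, hsq, ?_⟩
  · obtain ⟨p, hp⟩ := hne
    have h5 : 5 ≤ p := by
      have := (hP p hp).1.two_le
      have := (hP p hp).2
      omega
    refine h5.trans (Nat.le_of_dvd ?_ (Finset.dvd_prod_of_mem _ hp))
    exact Finset.prod_pos fun q hq => (hP q hq).1.pos
  · rw [← Nat.odd_iff]
    refine Finset.prod_induction _ (fun n => Odd n) (fun a b => Odd.mul) odd_one ?_
    intro p hp
    rw [Nat.odd_iff]
    have := (hP p hp).2
    omega
  · have h := (ZMod.isSquare_neg_one_iff_forall_mem_primeFactors_mod_four_ne_three hsq).mpr ?_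
    · obtain ⟨i, hi⟩ := h
      exact ⟨i, by rw [hi, sq]⟩
    · intro q hq
      have hq' := Nat.prime_of_mem_primeFactors hq
      have hqd := Nat.dvd_of_mem_primeFactors hq
      obtain ⟨p, hp, hqp⟩ := (Prime.dvd_finsetProd_iff hq'.prime _).mp hqd
      have : q = p := (Nat.prime_dvd_prime_iff_eq hq' (hP p hp).1).mp hqp
      rw [this]
      have := (hP p hp).2
      omega


open Classical in
/-- Side selection. -/
lemma side {d : ℕ} (hd : Good d) (S : Finset ℕ) :
    ∃ R : Finset (ZMod d), 5 * R.card ≤ 3 * d ∧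
      (S.filter (fun n : ℕ => ((n : ZMod d)) ∉ R)).card ^ 2 ≤
        Q d * ((S ×ˢ S).filter (fun z => d ∣ z.1 ^ 2 + z.2 ^ 2)).card := by
  obtain ⟨h5, hodd, hsq, i, hi⟩ := hd
  have : NeZero d := ⟨by omega⟩
  let A : ZMod d → ℕ := fun y => (S.filter (fun n : ℕ => ((n : ZMod d)) ^ 2 = y)).card
  let pref : ZMod d → Prop := fun y => A (-y) < A y ∨ (A (-y) = A y ∧ y.val < (-y).val)
  have hpref0 : ¬ pref 0 := by
    simp only [pref, neg_zero, lt_self_iff_false, and_false, or_self, not_false_iff]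
  have hnegne : ∀ y : ZMod d, y ≠ 0 → (-y).val ≠ y.val := by
    intro y hy h
    have h1 : -y = y := ZMod.val_injective d h
    rcases (ZMod.neg_eq_self_iff y).mp h1 with h2 | h2
    · exact hy h2
    · omega
  have htri : ∀ y : ZMod d, y ≠ 0 → ¬ pref y → pref (-y) := by
    intro y hy h
    have hne := hnegne y hy
    simp only [pref, not_or, not_lt, not_and, neg_neg] at h ⊢
    obtain ⟨h1, h2⟩ := h
    rcases lt_or_eq_of_le h1 with h3 | h3
    · exact Or.inl h3
    · refine Or.inr ⟨h3, ?_⟩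
      have := h2 h3.symm
      omega
  have hexcl : ∀ y : ZMod d, pref y → ¬ pref (-y) := by
    intro y h1 h2
    simp only [pref, neg_neg] at h1 h2
    omega
  have hsq0 : ∀ x : ZMod d, x ^ 2 = 0 → x = 0 := by
    intro x hx
    have h1 : ((x.val : ℕ) : ZMod d) ^ 2 = 0 := by simpa using hx
    have h2 : d ∣ x.val ^ 2 := by
      rw [← Nat.cast_pow] at h1
      exact (ZMod.natCast_eq_zero_iff _ _).mp h1
    have h3 : d ∣ x.val := (hsq.dvd_pow_iff_dvd (by norm_num)).mp h2
    have h4 : ((x.val : ℕ) : ZMod d) = 0 := (ZMod.natCast_eq_zero_iff _ _).mpr h3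
    simpa using h4
  let R' : Finset (ZMod d) := univ.filter (fun x => pref (x ^ 2))
  let R'' : Finset (ZMod d) := univ.filter (fun x => pref (-x ^ 2))
  have hcard : R''.card = R'.card := by
    refine Finset.card_bij (fun x _ => i * x) ?_ ?_ ?_
    · intro x hx
      rw [Finset.mem_filter] at hx ⊢
      refine ⟨Finset.mem_univ _, ?_⟩
      rw [mul_pow, hi, neg_one_mul]
      exact hx.2
    · intro x _ y _ hxy
      have : i * (i * x) = i * (i * y) := by rw [hxy]
      rw [← mul_assoc, ← mul_assoc, ← sq, hi] at this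
      simpa using this
    · intro y hy
      rw [Finset.mem_filter] at hy
      refine ⟨-(i * y), ?_, ?_⟩
      · rw [Finset.mem_filter]
        refine ⟨Finset.mem_univ _, ?_⟩
        rw [neg_sq, mul_pow, hi, neg_one_mul, neg_neg]
        exact hy.2
      · rw [mul_neg, ← mul_assoc, ← sq, hi]
        simp
  have hdisj : Disjoint R' R'' := by
    rw [Finset.disjoint_left]
    intro x h1 h2
    rw [Finset.mem_filter] at h1 h2
    exact hexcl _ h1.2 h2.2
  have h0 : (0 : ZMod d) ∉ R' ∪ R'' := by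
    rw [Finset.mem_union]
    rintro (h | h)
    · rw [Finset.mem_filter] at h
      exact hpref0 (by simpa using h.2)
    · rw [Finset.mem_filter] at h
      exact hpref0 (by simpa using h.2)
  have htot : R'.card + R''.card + 1 ≤ d := by
    rw [← Finset.card_union_of_disjoint hdisj, ← Finset.card_insert_of_notMem h0]
    refine (Finset.card_le_univ _).trans ?_
    rw [ZMod.card]
  refine ⟨insert 0 R', ?_, ?_⟩
  · have := Finset.card_insert_le (0 : ZMod d) R'
    omega
  · let T : Finset (ZMod d) := univ.filter (fun y => (∃ x : ZMod d, x ^ 2 = y) ∧ pref (-y))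
    have hT : T.card ≤ Q d := by
      unfold Q
      rw [← Set.ncard_coe_finset]
      refine Set.ncard_le_ncard ?_ (Set.toFinite _)
      intro y hy
      rw [Finset.mem_coe, Finset.mem_filter] at hy
      exact hy.2.1
    have hsub : (S.filter (fun n : ℕ => ((n : ZMod d)) ∉ insert 0 R')).card ≤ ∑ y ∈ T, A y := by
      rw [Finset.card_eq_sum_card_fiberwise (f := fun n : ℕ => ((n : ZMod d)) ^ 2) (t := T)]
      · refine Finset.sum_le_sum fun y _ => Finset.card_le_card ?_
        intro n hn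
        rw [Finset.mem_filter, Finset.mem_filter] at hn
        rw [Finset.mem_filter]
        exact ⟨hn.1.1, hn.2⟩
      · intro n hn
        rw [Finset.mem_coe, Finset.mem_filter, Finset.mem_insert, not_or] at hn
        obtain ⟨_, hn0, hnR⟩ := hn
        rw [Finset.mem_coe, Finset.mem_filter]
        refine ⟨Finset.mem_univ _, ⟨_, rfl⟩, ?_⟩
        refine htri _ (fun h => hn0 (hsq0 _ h)) ?_
        intro h
        exact hnR (Finset.mem_filter.mpr ⟨Finset.mem_univ _, h⟩)
    have hE : ∑ y ∈ T, A y * A (-y) ≤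
        ((S ×ˢ S).filter (fun z => d ∣ z.1 ^ 2 + z.2 ^ 2)).card := by
      rw [Finset.card_eq_sum_card_fiberwise (f := fun z : ℕ × ℕ => ((z.1 : ZMod d)) ^ 2)
        (t := (univ : Finset (ZMod d))) (fun _ _ => Finset.mem_coe.mpr (Finset.mem_univ _))]
      refine (Finset.sum_le_sum_of_subset (Finset.subset_univ T)).trans ?_
      refine Finset.sum_le_sum fun y _ => ?_
      rw [← Finset.card_product]
      refine Finset.card_le_card ?_
      intro z hz
      rw [Finset.mem_product, Finset.mem_filter, Finset.mem_filter] at hz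
      obtain ⟨⟨h1, h2⟩, h3, h4⟩ := hz
      rw [Finset.mem_filter, Finset.mem_filter, Finset.mem_product]
      refine ⟨⟨⟨h1, h3⟩, ?_⟩, h2⟩
      rw [← ZMod.natCast_eq_zero_iff]
      push_cast
      rw [h2, h4]
      ring
    have hAle : ∀ y ∈ T, A y ^ 2 ≤ A y * A (-y) := by
      intro y hy
      rw [Finset.mem_filter] at hy
      have h1 : A y ≤ A (-y) := by
        have := hy.2.2
        simp only [pref, neg_neg] at this
        omega
      rw [sq]
      exact Nat.mul_le_mul_left _ h1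
    calc (S.filter (fun n : ℕ => ((n : ZMod d)) ∉ insert 0 R')).card ^ 2
        ≤ (∑ y ∈ T, A y) ^ 2 := Nat.pow_le_pow_left hsub 2
      _ ≤ T.card * ∑ y ∈ T, A y ^ 2 := sq_sum_le_card_mul_sum_sq
      _ ≤ Q d * ∑ y ∈ T, A y * A (-y) := Nat.mul_le_mul hT (Finset.sum_le_sum hAle)
      _ ≤ _ := Nat.mul_le_mul_left _ hE

end Pool.Agent.H397R2.NS
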