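import Mathlib
import Pool.Agent.H397R2.NS1

open Finset

namespace Pool.Agent.H397R2.NS

open Classical in
lemma count_inter {m : ℕ} (d : Fin m → ℕ) (_hpos : ∀ i, 0 < d i)
    (hcop : Pairwise fun i j => (d i).Coprime (d j)) (R : ∀ i, Finset (ZMod (d i)))
    (S : Finset ℕ) (X : ℕ) (hS : ∀ n ∈ S, n < X) :
    (S.filter (fun n : ℕ => ∀ i, ((n : ZMod (d i))) ∈ R i)).card ≤
      (X / (∏ i, d i) + 1) * ∏ i, (R i).card := by
  rw [← Fintype.card_piFinset, ← Finset.card_range (X / (∏ i, d i) + 1), ← Finset.card_product]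
  refine Finset.card_le_card_of_injOn
    (fun n => ((n / (∏ i, d i) : ℕ), fun i => ((n : ZMod (d i))))) ?_ ?_
  · intro n hn
    rw [Finset.mem_coe, Finset.mem_filter] at hn
    rw [Finset.mem_coe, Finset.mem_product, Finset.mem_range, Fintype.mem_piFinset]
    refine ⟨?_, hn.2⟩
    have := hS n hn.1
    exact Nat.lt_succ_of_le (Nat.div_le_div_right this.le)
  · intro n _ n' _ h
    rw [Prod.mk.injEq] at h
    obtain ⟨h1, h2⟩ := h
    have h3 : ((∏ i, d i : ℕ) : ℤ) ∣ (n' : ℤ) - n := by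
      push_cast
      refine Finset.prod_dvd_of_coprime ?_ ?_
      · intro i _ j _ hij
        exact Nat.isCoprime_iff_coprime.mpr (hcop hij)
      · intro i _
        have h4 := congrFun h2 i
        have h5 := (ZMod.natCast_eq_natCast_iff _ _ _).mp h4
        exact (Nat.modEq_iff_dvd).mp h5
    have h4 : n ≡ n' [MOD (∏ i, d i)] := (Nat.modEq_iff_dvd).mpr h3
    rw [← Nat.div_add_mod n (∏ i, d i), ← Nat.div_add_mod n' (∏ i, d i), h1, h4]

open Classical in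
lemma core {m : ℕ} (hm : 0 < m) (w : ℕ) (d : Fin m → ℕ) (hd : ∀ i, Good (d i))
    (hcop : Pairwise fun i j => (d i).Coprime (d j))
    (hQ : ∀ i, 5 ^ w * Q (d i) ≤ 3 ^ w * d i) (X : ℕ) (hD : ∏ i, d i ≤ X)
    (S : Finset ℕ) (hSX : ∀ n ∈ S, n < X) (hS : 4 * (3 / 5 : ℝ) ^ m * X ≤ S.card) :
    ∃ k : ℕ, k ≤ 2 * X ^ 2 ∧ ((S.card : ℝ) / (m * X)) ^ 2 * (5 / 3 : ℝ) ^ w / 12 ≤
      ((S ×ˢ S).filter (fun z => z.1 ^ 2 + z.2 ^ 2 = k)).card := by
  have hpos : ∀ i, 0 < d i := fun i => by have := (hd i).five; omega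
  choose R hR1 hR2 using fun i => side (hd i) S
  have hD0 : 0 < ∏ i, d i := Finset.prod_pos fun i _ => hpos i
  have hX0 : 0 < X := lt_of_lt_of_le hD0 hD
  have hXr : (0 : ℝ) < X := by exact_mod_cast hX0
  have hmr : (0 : ℝ) < m := by exact_mod_cast hm
  -- step 1
  have h1 : ((S.filter (fun n : ℕ => ∀ i, ((n : ZMod (d i))) ∈ R i)).card : ℝ) ≤ S.card / 2 := by
    have h2 := count_inter d hpos hcop R S X hSX
    have h3 : ((S.filter (fun n : ℕ => ∀ i, ((n : ZMod (d i))) ∈ R i)).card : ℝ) ≤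
        ((X / (∏ i, d i) : ℕ) + 1 : ℝ) * ∏ i, ((R i).card : ℝ) := by
      exact_mod_cast h2
    have h4 : ∏ i, ((R i).card : ℝ) ≤ (3 / 5 : ℝ) ^ m * ∏ i, (d i : ℝ) := by
      have : (3 / 5 : ℝ) ^ m * ∏ i, (d i : ℝ) = ∏ i, ((3 / 5 : ℝ) * (d i : ℝ)) := by
        rw [Finset.prod_mul_distrib, Finset.prod_const, Finset.card_univ, Fintype.card_fin]
      rw [this]
      refine Finset.prod_le_prod (fun i _ => Nat.cast_nonneg _) fun i _ => ?_
      have := hR1 i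
      have h5 : (5 : ℝ) * (R i).card ≤ 3 * d i := by exact_mod_cast this
      linarith
    have hDr : (0 : ℝ) < ∏ i, (d i : ℝ) := by exact_mod_cast hD0
    have h5 : ((X / (∏ i, d i) : ℕ) : ℝ) + 1 ≤ 2 * X / ∏ i, (d i : ℝ) := by
      have h6 : ((X / (∏ i, d i) : ℕ) : ℝ) ≤ X / ∏ i, (d i : ℝ) := by
        have := @Nat.cast_div_le ℝ _ _ _ X (∏ i, d i)
        push_cast at this ⊢
        exact this
      have h7 : (1 : ℝ) ≤ X / ∏ i, (d i : ℝ) := by
        rw [le_div_iff₀ hDr, one_mul]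
        exact_mod_cast hD
      have h8 : 2 * (X : ℝ) / ∏ i, (d i : ℝ) = X / ∏ i, (d i : ℝ) + X / ∏ i, (d i : ℝ) := by ring
      rw [h8]
      exact add_le_add h6 h7
    have h9 : ((X / (∏ i, d i) : ℕ) + 1 : ℝ) * ∏ i, ((R i).card : ℝ) ≤
        (2 * X / ∏ i, (d i : ℝ)) * ((3 / 5 : ℝ) ^ m * ∏ i, (d i : ℝ)) :=
      mul_le_mul h5 h4 (Finset.prod_nonneg fun i _ => Nat.cast_nonneg _) (by positivity)
    have h10 : (2 * X / ∏ i, (d i : ℝ)) * ((3 / 5 : ℝ) ^ m * ∏ i, (d i : ℝ)) =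
        2 * (3 / 5 : ℝ) ^ m * X := by
      field_simp
    rw [h10] at h9
    linarith
  -- step 2
  have h2 : (S.card : ℝ) ≤ ((S.filter (fun n : ℕ => ∀ i, ((n : ZMod (d i))) ∈ R i)).card : ℝ) +
      ∑ i, ((S.filter (fun n : ℕ => ((n : ZMod (d i))) ∉ R i)).card : ℝ) := by
    have h3 : S.card ≤ (S.filter (fun n : ℕ => ∀ i, ((n : ZMod (d i))) ∈ R i)).card +
      ∑ i, (S.filter (fun n : ℕ => ((n : ZMod (d i))) ∉ R i)).card := by
      have h4 : S ⊆ (S.filter (fun n : ℕ => ∀ i, ((n : ZMod (d i))) ∈ R i)) ∪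
          univ.biUnion (fun i => S.filter (fun n : ℕ => ((n : ZMod (d i))) ∉ R i)) := by
        intro n hn
        by_cases h : ∀ i, ((n : ZMod (d i))) ∈ R i
        · exact Finset.mem_union_left _ (Finset.mem_filter.mpr ⟨hn, h⟩)
        · push Not at h
          obtain ⟨i, hi⟩ := h
          exact Finset.mem_union_right _ (Finset.mem_biUnion.mpr
            ⟨i, Finset.mem_univ _, Finset.mem_filter.mpr ⟨hn, hi⟩⟩)
      refine (Finset.card_le_card h4).trans ((Finset.card_union_le _ _).trans ?_)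
      exact Nat.add_le_add_left Finset.card_biUnion_le _
    exact_mod_cast h3
  -- step 3
  obtain ⟨i, hi⟩ : ∃ i, (S.card : ℝ) / (2 * m) ≤
      ((S.filter (fun n : ℕ => ((n : ZMod (d i))) ∉ R i)).card : ℝ) := by
    by_contra hcon
    push Not at hcon
    have hne : (univ : Finset (Fin m)).Nonempty := ⟨⟨0, hm⟩, Finset.mem_univ _⟩
    have h4 := Finset.sum_lt_sum_of_nonempty hne (fun i _ => hcon i)
    rw [Finset.sum_const, Finset.card_univ, Fintype.card_fin, nsmul_eq_mul] at h4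
    have h5 : (m : ℝ) * ((S.card : ℝ) / (2 * m)) = S.card / 2 := by field_simp
    rw [h5] at h4
    linarith
  have hdi : (0 : ℝ) < d i := by exact_mod_cast hpos i
  have hdiX : d i ≤ X := by
    refine le_trans (Nat.le_of_dvd hD0 (Finset.dvd_prod_of_mem _ (Finset.mem_univ i))) hD
  set E := (S ×ˢ S).filter (fun z => d i ∣ z.1 ^ 2 + z.2 ^ 2) with hE
  have h4 : ((S.card : ℝ) / (2 * m)) ^ 2 ≤ (3 / 5 : ℝ) ^ w * d i * E.card := by
    have h5 : ((S.filter (fun n : ℕ => ((n : ZMod (d i))) ∉ R i)).card : ℝ) ^ 2 ≤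
        Q (d i) * E.card := by exact_mod_cast hR2 i
    have h6 : (Q (d i) : ℝ) ≤ (3 / 5 : ℝ) ^ w * d i := by
      have h7 : (5 : ℝ) ^ w * Q (d i) ≤ 3 ^ w * d i := by exact_mod_cast hQ i
      rw [div_pow, div_mul_eq_mul_div, le_div_iff₀ (by positivity)]
      linarith
    calc ((S.card : ℝ) / (2 * m)) ^ 2
        ≤ ((S.filter (fun n : ℕ => ((n : ZMod (d i))) ∉ R i)).card : ℝ) ^ 2 :=
          pow_le_pow_left₀ (by positivity) hi 2
      _ ≤ Q (d i) * E.card := h5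
      _ ≤ (3 / 5 : ℝ) ^ w * d i * E.card := mul_le_mul_of_nonneg_right h6 (Nat.cast_nonneg _)
  -- step 4 : pigeonhole
  have hmaps : ∀ z ∈ E, (z.1 ^ 2 + z.2 ^ 2) / d i ∈ Finset.range (2 * X ^ 2 / d i + 1) := by
    intro z hz
    rw [hE, Finset.mem_filter, Finset.mem_product] at hz
    rw [Finset.mem_range]
    refine Nat.lt_succ_of_le (Nat.div_le_div_right ?_)
    have h5 := hSX _ hz.1.1
    have h6 := hSX _ hz.1.2
    have h7 : z.1 ^ 2 ≤ X ^ 2 := Nat.pow_le_pow_left h5.le 2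
    have h8 : z.2 ^ 2 ≤ X ^ 2 := Nat.pow_le_pow_left h6.le 2
    omega
  have hcells : ((2 * X ^ 2 / d i + 1 : ℕ) : ℝ) ≤ 3 * X ^ 2 / d i := by
    push_cast
    have h5 : ((2 * X ^ 2 / d i : ℕ) : ℝ) ≤ 2 * X ^ 2 / d i := by
      have := @Nat.cast_div_le ℝ _ _ _ (2 * X ^ 2) (d i)
      push_cast at this ⊢
      exact this
    have h6 : (1 : ℝ) ≤ X ^ 2 / d i := by
      rw [le_div_iff₀ hdi, one_mul]
      have h7 : (d i : ℝ) ≤ X := by exact_mod_cast hdiX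
      have h8 : (1 : ℝ) ≤ X := by exact_mod_cast hX0
      nlinarith
    have h7 : 3 * (X : ℝ) ^ 2 / d i = 2 * X ^ 2 / d i + X ^ 2 / d i := by ring
    rw [h7]
    linarith
  obtain ⟨q, _, hq⟩ := Finset.exists_le_card_fiber_of_nsmul_le_card_of_maps_to
    (b := ((S.card : ℝ) / (m * X)) ^ 2 * (5 / 3 : ℝ) ^ w / 12) hmaps
    ⟨0, Finset.mem_range.mpr (Nat.succ_pos _)⟩ (by
      rw [Finset.card_range, nsmul_eq_mul]
      have h5 : (5 / 3 : ℝ) ^ w * ((S.card : ℝ) / (2 * m)) ^ 2 ≤ d i * E.card := by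
        calc (5 / 3 : ℝ) ^ w * ((S.card : ℝ) / (2 * m)) ^ 2
            ≤ (5 / 3 : ℝ) ^ w * ((3 / 5 : ℝ) ^ w * d i * E.card) :=
              mul_le_mul_of_nonneg_left h4 (by positivity)
          _ = ((5 / 3 : ℝ) * (3 / 5)) ^ w * (d i * E.card) := by rw [mul_pow]; ring
          _ = d i * E.card := by norm_num
      calc ((2 * X ^ 2 / d i + 1 : ℕ) : ℝ) *
            (((S.card : ℝ) / (m * X)) ^ 2 * (5 / 3 : ℝ) ^ w / 12)
          ≤ (3 * X ^ 2 / d i) * (((S.card : ℝ) / (m * X)) ^ 2 * (5 / 3 : ℝ) ^ w / 12) :=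
            mul_le_mul_of_nonneg_right hcells (by positivity)
        _ = ((5 / 3 : ℝ) ^ w * ((S.card : ℝ) / (2 * m)) ^ 2) / d i := by
            field_simp
            ring
        _ ≤ (d i * E.card) / d i := div_le_div_of_nonneg_right h5 hdi.le
        _ = E.card := by field_simp)
  refine ⟨min (d i * q) (2 * X ^ 2), min_le_right _ _, ?_⟩
  refine hq.trans ?_
  rw [Nat.cast_le]
  refine Finset.card_le_card ?_
  intro z hz
  rw [Finset.mem_filter] at hz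
  obtain ⟨hzE, hzq⟩ := hz
  have hzE' := hzE
  rw [hE, Finset.mem_filter] at hzE'
  rw [Finset.mem_filter]
  refine ⟨hzE'.1, ?_⟩
  have h5 : d i * q = z.1 ^ 2 + z.2 ^ 2 := by
    rw [← hzq]
    exact Nat.mul_div_cancel' hzE'.2
  rw [h5, min_eq_left]
  have hz1 := hzE'.1
  rw [Finset.mem_product] at hz1
  have h6 := hSX _ hz1.1
  have h7 := hSX _ hz1.2
  have h8 : z.1 ^ 2 ≤ X ^ 2 := Nat.pow_le_pow_left h6.le 2
  have h9 : z.2 ^ 2 ≤ X ^ 2 := Nat.pow_le_pow_left h7.le 2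
  omega

end Pool.Agent.H397R2.NS
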