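import Mathlib
import Pool.Agent.H397R2.NS2
import Pool.Agent.H313R2.CC1

open Finset

namespace Pool.Agent.H397R2.NS

open Pool.Agent.H313R2 (S1 mem_S1)

/-- Pairwise coprime moduli, each a product of `w` primes `≡ 1 (mod 4)` up to `y`. -/
lemma blocks {m w y : ℕ} (hw : 0 < w) (_hy : 1 ≤ y) (h : m * w ≤ (S1 y).card) :
    ∃ d : Fin m → ℕ, (∀ i, Good (d i)) ∧ (Pairwise fun i j => (d i).Coprime (d j)) ∧
      (∀ i, 5 ^ w * Q (d i) ≤ 3 ^ w * d i) ∧ ∏ i, d i ≤ y ^ (m * w) := by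
  classical
  obtain ⟨e⟩ : Nonempty (Fin m × Fin w ↪ S1 y) := by
    apply Function.Embedding.nonempty_of_card_le
    simpa using h
  have hinj : Function.Injective fun z : Fin m × Fin w => ((e z : S1 y) : ℕ) :=
    fun a b hab => e.injective (Subtype.ext hab)
  have hpr : ∀ z, ((e z : S1 y) : ℕ).Prime ∧ ((e z : S1 y) : ℕ) % 4 = 1 := fun z =>
    (mem_S1.mp (e z).2).2
  have hle : ∀ z, ((e z : S1 y) : ℕ) ≤ y := fun z => (mem_S1.mp (e z).2).1.2
  let P : Fin m → Finset ℕ := fun i => univ.image fun j : Fin w => ((e (i, j) : S1 y) : ℕ)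
  have hinj' : ∀ i, Function.Injective fun j : Fin w => ((e (i, j) : S1 y) : ℕ) := by
    intro i a b hab
    have := hinj hab
    simpa using this
  have hPcard : ∀ i, (P i).card = w := by
    intro i
    rw [Finset.card_image_of_injective _ (hinj' i)]
    simp
  have hP : ∀ i, ∀ p ∈ P i, p.Prime ∧ p % 4 = 1 := by
    intro i p hp
    rw [Finset.mem_image] at hp
    obtain ⟨j, _, rfl⟩ := hp
    exact hpr _
  refine ⟨fun i => ∏ p ∈ P i, p, ?_, ?_, ?_, ?_⟩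
  · intro i
    refine good_prod (P i) ?_ (hP i)
    rw [← Finset.card_pos, hPcard]
    exact hw
  · intro i i' hii
    refine Nat.Coprime.prod_left fun p hp => Nat.Coprime.prod_right fun q hq => ?_
    refine (Nat.coprime_primes (hP i p hp).1 (hP i' q hq).1).mpr ?_
    rintro rfl
    rw [Finset.mem_image] at hp hq
    obtain ⟨j, _, hj⟩ := hp
    obtain ⟨j', _, hj'⟩ := hq
    have := hinj (hj.trans hj'.symm)
    rw [Prod.mk.injEq] at this
    exact hii this.1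
  · intro i
    have := Q_prod (P i) (fun p hp => ⟨(hP i p hp).1, by
      have h1 := (hP i p hp).1.two_le
      have h2 := (hP i p hp).2
      omega⟩)
    rwa [hPcard] at this
  · have h1 : ∀ i, ∏ p ∈ P i, p ≤ y ^ w := by
      intro i
      calc ∏ p ∈ P i, p ≤ ∏ p ∈ P i, y := by
            refine Finset.prod_le_prod' fun p hp => ?_
            rw [Finset.mem_image] at hp
            obtain ⟨j, _, rfl⟩ := hp
            exact hle _
        _ = y ^ w := by rw [Finset.prod_const, hPcard]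
    calc ∏ i, ∏ p ∈ P i, p ≤ ∏ _i : Fin m, y ^ w := Finset.prod_le_prod' fun i _ => h1 i
      _ = y ^ (m * w) := by
        rw [Finset.prod_const, Finset.card_univ, Fintype.card_fin, ← pow_mul, mul_comm]

/-- The number of ordered representations of `s` as a sum of two elements of `A`. -/
noncomputable def rep (A : Set ℕ) (s : ℕ) : ℕ :=
  {p : ℕ × ℕ | p.1 ∈ A ∧ p.2 ∈ A ∧ p.1 + p.2 = s}.ncard

lemma rep_finite (A : Set ℕ) (s : ℕ) : {p : ℕ × ℕ | p.1 ∈ A ∧ p.2 ∈ A ∧ p.1 + p.2 = s}.Finite := by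
  refine (Finset.finite_toSet (Finset.HasAntidiagonal.antidiagonal s)).subset ?_
  rintro p ⟨_, _, h⟩
  simpa using h

open Classical in
lemma transfer (A : Set ℕ) (α G : ℝ) (hG : 0 ≤ G) (S : Finset ℕ) (a : ℕ → ℕ)
    (hinj : Set.InjOn a S) (haA : ∀ n ∈ S, a n ∈ A)
    (ha : ∀ n ∈ S, |(a n : ℝ) - α * n ^ 2| ≤ G) (k : ℕ) (b : ℝ) (hb : 0 < b)
    (hk : b ≤ ((S ×ˢ S).filter (fun z => z.1 ^ 2 + z.2 ^ 2 = k)).card) :
    ∃ s : ℕ, (s : ℝ) ≤ α * k + 2 * G ∧ b / (4 * G + 1) ≤ rep A s := by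
  set E := (S ×ˢ S).filter (fun z => z.1 ^ 2 + z.2 ^ 2 = k) with hE
  have hwin : ∀ z ∈ E, α * k - 2 * G ≤ ((a z.1 + a z.2 : ℕ) : ℝ) ∧
      ((a z.1 + a z.2 : ℕ) : ℝ) ≤ α * k + 2 * G := by
    intro z hz
    rw [hE, Finset.mem_filter, Finset.mem_product] at hz
    obtain ⟨⟨h1, h2⟩, h3⟩ := hz
    have h4 := abs_le.mp (ha _ h1)
    have h5 := abs_le.mp (ha _ h2)
    have h6 : (z.1 : ℝ) ^ 2 + (z.2 : ℝ) ^ 2 = k := by exact_mod_cast h3
    rw [← h6]
    push_cast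
    constructor
    · linarith [h4.1, h5.1]
    · linarith [h4.2, h5.2]
  set T := Finset.Icc ⌈α * k - 2 * G⌉₊ ⌊α * k + 2 * G⌋₊ with hT
  have hmaps : ∀ z ∈ E, a z.1 + a z.2 ∈ T := by
    intro z hz
    obtain ⟨h1, h2⟩ := hwin z hz
    rw [hT, Finset.mem_Icc]
    exact ⟨Nat.ceil_le.mpr h1, Nat.le_floor h2⟩
  have hEne : E.Nonempty := by
    rw [← Finset.card_pos]
    have : (0 : ℝ) < E.card := lt_of_lt_of_le hb hk
    exact_mod_cast this
  obtain ⟨z0, hz0⟩ := hEne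
  have hTcard : (T.card : ℝ) ≤ 4 * G + 1 := by
    have h0 := hmaps z0 hz0
    rw [hT, Finset.mem_Icc] at h0
    have h1 : ⌈α * k - 2 * G⌉₊ ≤ ⌊α * k + 2 * G⌋₊ := h0.1.trans h0.2
    rw [hT, Nat.card_Icc, Nat.cast_sub (by omega)]
    have h2 := Nat.le_ceil (α * k - 2 * G)
    have h3 : ((⌊α * k + 2 * G⌋₊ : ℕ) : ℝ) ≤ α * k + 2 * G := by
      refine Nat.floor_le ?_
      have := (hwin z0 hz0).2
      exact (Nat.cast_nonneg _).trans this
    push_cast
    linarith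
  obtain ⟨s, hs, hs'⟩ := Finset.exists_le_card_fiber_of_nsmul_le_card_of_maps_to
    (b := b / (4 * G + 1)) hmaps ⟨_, hmaps z0 hz0⟩ (by
      rw [nsmul_eq_mul]
      refine le_trans ?_ hk
      calc (T.card : ℝ) * (b / (4 * G + 1)) ≤ (4 * G + 1) * (b / (4 * G + 1)) :=
            mul_le_mul_of_nonneg_right hTcard (by positivity)
        _ = b := by field_simp)
  refine ⟨s, ?_, ?_⟩
  · rw [hT, Finset.mem_Icc] at hs
    have h3 : ((⌊α * k + 2 * G⌋₊ : ℕ) : ℝ) ≤ α * k + 2 * G := by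
      refine Nat.floor_le ?_
      have := (hwin z0 hz0).2
      exact (Nat.cast_nonneg _).trans this
    have : (s : ℝ) ≤ (⌊α * k + 2 * G⌋₊ : ℕ) := by exact_mod_cast hs.2
    exact this.trans h3
  · refine hs'.trans ?_
    rw [Nat.cast_le]
    unfold rep
    rw [← Set.ncard_coe_finset]
    refine Set.ncard_le_ncard_of_injOn (fun z : ℕ × ℕ => (a z.1, a z.2)) ?_ ?_ (rep_finite A s)
    · intro z hz
      rw [Finset.mem_coe, Finset.mem_filter] at hz
      have hzE := hz.1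
      rw [hE, Finset.mem_filter, Finset.mem_product] at hzE
      exact ⟨haA _ hzE.1.1, haA _ hzE.1.2, hz.2⟩
    · intro z hz z' hz' h
      rw [Finset.mem_coe, Finset.mem_filter] at hz hz'
      have h1 := hz.1
      have h2 := hz'.1
      rw [hE, Finset.mem_filter, Finset.mem_product] at h1 h2
      simp only [Prod.mk.injEq] at h
      exact Prod.ext (hinj h1.1.1 h2.1.1 h.1) (hinj h1.1.2 h2.1.2 h.2)

/-- The quantitative main inequality. -/
lemma master (A : Set ℕ) (α G : ℝ) (hα : 0 < α) (hG : 1 ≤ G) {m w y X : ℕ} (hm : 0 < m)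
    (hw : 0 < w) (hy : 1 ≤ y) (hmw : m * w ≤ (S1 y).card) (hX : y ^ (m * w) ≤ X)
    (S : Finset ℕ) (hSX : ∀ n ∈ S, n < X) (hS : 4 * (3 / 5 : ℝ) ^ m * X ≤ S.card) (a : ℕ → ℕ)
    (hinj : Set.InjOn a S) (haA : ∀ n ∈ S, a n ∈ A)
    (ha : ∀ n ∈ S, |(a n : ℝ) - α * n ^ 2| ≤ G) :
    ∃ s : ℕ, (s : ℝ) ≤ 2 * α * X ^ 2 + 2 * G ∧
      ((S.card : ℝ) / (m * X)) ^ 2 * (5 / 3 : ℝ) ^ w / (60 * G) ≤ rep A s := by
  obtain ⟨d, hd1, hd2, hd3, hd4⟩ := blocks hw hy hmw
  obtain ⟨k, hk, hk'⟩ := core hm w d hd1 hd2 hd3 X (hd4.trans hX) S hSX hS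
  have hX0 : 0 < X := lt_of_lt_of_le (pow_pos (by omega) _) hX
  have hXr : (0 : ℝ) < X := by exact_mod_cast hX0
  have hS0 : (0 : ℝ) < S.card := lt_of_lt_of_le (by positivity) hS
  have hmr : (0 : ℝ) < m := by exact_mod_cast hm
  obtain ⟨s, hs, hs'⟩ := transfer A α G (by linarith) S a hinj haA ha k _ (by positivity) hk'
  refine ⟨s, hs.trans ?_, le_trans ?_ hs'⟩
  · have : (k : ℝ) ≤ 2 * X ^ 2 := by exact_mod_cast hk
    nlinarith
  · rw [div_div]
    refine div_le_div_of_nonneg_left (by positivity) (by positivity) ?_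
    linarith

end Pool.Agent.H397R2.NS
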