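import Mathlib
import Pool.Agent.H397R2.NS3

open Finset Filter Topology Real

namespace Pool.Agent.H397R2.NS

open Pool.Agent.H313R2 (S1 mem_S1 S1_card_ge)

lemma prime_param : ∀ᶠ L : ℝ in atTop, ∃ y : ℕ, 1 ≤ y ∧ L / (8 * log L) ≤ (S1 y).card ∧
    ∀ N : ℕ, (N : ℝ) ≤ L / (8 * log L) → ((y ^ N : ℕ) : ℝ) ≤ exp (L / 8) := by
  have h1 : Tendsto (fun L : ℝ => ⌊L⌋₊) atTop atTop := tendsto_nat_floor_atTop
  have h2 := h1.eventually S1_card_ge
  filter_upwards [h2, eventually_ge_atTop (3 : ℝ)] with L hL hL3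
  have hy1 : (2 : ℝ) < ⌊L⌋₊ := by
    have := Nat.sub_one_lt_floor L
    linarith
  have hyL : ((⌊L⌋₊ : ℕ) : ℝ) ≤ L := Nat.floor_le (by linarith)
  have hlogy : 0 < log (⌊L⌋₊ : ℝ) := log_pos (by linarith)
  have hlogL : log (⌊L⌋₊ : ℝ) ≤ log L := log_le_log (by linarith) hyL
  have hlogL0 : 0 < log L := by linarith
  refine ⟨⌊L⌋₊, ?_, ?_, ?_⟩
  · have : (0 : ℝ) < ⌊L⌋₊ := by linarith
    exact_mod_cast this
  · refine le_trans ?_ hL
    have hyL2 : L / 2 ≤ (⌊L⌋₊ : ℕ) := by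
      have := Nat.sub_one_lt_floor L
      linarith
    calc L / (8 * log L) = (L / 2) / (4 * log L) := by field_simp; norm_num
      _ ≤ (⌊L⌋₊ : ℕ) / (4 * log L) := div_le_div_of_nonneg_right hyL2 (by positivity)
      _ ≤ (⌊L⌋₊ : ℕ) / (4 * log (⌊L⌋₊ : ℝ)) :=
        div_le_div_of_nonneg_left (by positivity) (by positivity) (by linarith)
  · intro N hN
    push_cast
    calc ((⌊L⌋₊ : ℕ) : ℝ) ^ N ≤ L ^ N := pow_le_pow_left₀ (by positivity) hyL N
      _ = exp (N * log L) := by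
        rw [exp_nat_mul, exp_log (by linarith)]
      _ ≤ exp (L / 8) := by
        refine exp_le_exp.mpr ?_
        calc (N : ℝ) * log L ≤ L / (8 * log L) * log L :=
              mul_le_mul_of_nonneg_right hN hlogL0.le
          _ = L / 8 := by field_simp

lemma psi_le {s : ℝ} {L K : ℝ} (hK : 1 ≤ K) (hL : 3 ≤ L) (hs : 16 ≤ s) (h : log s ≤ K * L) :
    log s / log (log s) ≤ K * (L / log L) := by
  have he := exp_one_lt_d9
  have hu : exp 1 ≤ log s := by
    have h1 : log 16 ≤ log s := log_le_log (by norm_num) hs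
    have h2 : log (16 : ℝ) = 4 * log 2 := by
      rw [show (16 : ℝ) = 2 ^ 4 by norm_num, log_pow]
      norm_num
    have h3 := log_two_gt_d9
    linarith
  have hlogL : 0 < log L := log_pos (by linarith)
  have hKL : L ≤ K * L := by nlinarith
  have h1 := log_div_self_antitoneOn (a := log s) (b := K * L) hu (hu.trans h) h
  simp only at h1
  have hu0 : 0 < log s := lt_of_lt_of_le (exp_pos 1) hu
  have hlogu : 0 < log (log s) := by
    refine log_pos (lt_of_lt_of_le ?_ hu)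
    linarith [exp_one_gt_d9]
  have hlogKL : 0 < log (K * L) := log_pos (by linarith)
  have h2 : log s / log (log s) ≤ K * L / log (K * L) := by
    rw [div_le_div_iff₀ (by linarith) hu0] at h1
    rw [div_le_div_iff₀ hlogu hlogKL]
    linarith
  refine h2.trans ?_
  rw [← mul_div_assoc]
  exact div_le_div_of_nonneg_left (by nlinarith) hlogL (log_le_log (by linarith) hKL)

lemma rep_le (A : Set ℕ) (s : ℕ) : rep A s ≤ s + 1 := by
  unfold rep
  rw [← Finset.Nat.card_antidiagonal s, ← Set.ncard_coe_finset]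
  refine Set.ncard_le_ncard ?_ (Finset.finite_toSet _)
  rintro p ⟨_, _, h⟩
  simpa using h

lemma five_thirds (w : ℕ) : exp ((w : ℝ) / 2) ≤ (5 / 3 : ℝ) ^ w := by
  have h1 : exp (1 / 2 : ℝ) ≤ 5 / 3 := by
    have h2 : exp (1 / 2 : ℝ) ^ 2 ≤ (5 / 3 : ℝ) ^ 2 := by
      rw [← exp_nat_mul]
      norm_num
      linarith [exp_one_lt_d9]
    exact le_of_sq_le_sq h2 (by norm_num)
  calc exp ((w : ℝ) / 2) = exp (1 / 2 : ℝ) ^ w := by rw [← exp_nat_mul]; ring_nf
    _ ≤ (5 / 3 : ℝ) ^ w := pow_le_pow_left₀ (exp_pos _).le h1 w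

lemma three_fifths (m : ℕ) : (3 / 5 : ℝ) ^ m ≤ exp (-((m : ℝ) / 2)) := by
  have h := five_thirds m
  rw [exp_neg, show (3 / 5 : ℝ) = (5 / 3 : ℝ)⁻¹ by norm_num, inv_pow]
  exact inv_anti₀ (exp_pos _) h

lemma psi_tendsto : Tendsto (fun L : ℝ => L / log L) atTop atTop := by
  have h := (isLittleO_log_id_atTop).tendsto_div_nhds_zero
  have h2 : Tendsto (fun x : ℝ => log x / x) atTop (𝓝[>] 0) := by
    rw [tendsto_nhdsWithin_iff]
    refine ⟨h, ?_⟩
    filter_upwards [eventually_gt_atTop 1] with x hx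
    exact div_pos (log_pos hx) (by linarith)
  refine (tendsto_inv_nhdsGT_zero.comp h2).congr fun x => ?_
  simp

end Pool.Agent.H397R2.NS
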