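import Mathlib
import Pool.Agent.H397R2.NS4

open Finset Filter Topology Real

namespace Pool.Agent.H397R2.NS

open Pool.Agent.H313R2 (S1 mem_S1 S1_card_ge)

theorem part2 (δ : ℝ) (hδ : 0 < δ) : ∃ c : ℝ, 0 < c ∧ ∀ α : ℝ, 0 < α → ∀ A : Set ℕ,
    (∃ᶠ X : ℕ in atTop, δ * X ≤ ({n : ℕ | n < X ∧ ∃ a ∈ A,
      |(a : ℝ) - α * n ^ 2| ≤ exp (c * (log X / log (log X)))}.ncard : ℝ)) →
    ∃ᶠ s : ℕ in atTop, exp (c * (log s / log (log s))) ≤ rep A s := by
  classical
  obtain ⟨m0, hm0⟩ := exists_pow_lt_of_lt_one (x := δ / 8) (y := (3 / 5 : ℝ)) (by positivity)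
    (by norm_num)
  obtain ⟨m, hm, hmδ⟩ : ∃ m : ℕ, 0 < m ∧ 4 * (3 / 5 : ℝ) ^ m ≤ δ / 2 := by
    refine ⟨m0 + 1, Nat.succ_pos _, ?_⟩
    rw [pow_succ]
    have : (0 : ℝ) < (3 / 5 : ℝ) ^ m0 := by positivity
    linarith
  have hmr : (0 : ℝ) < m := by exact_mod_cast hm
  have hm1 : (1 : ℝ) ≤ m := by exact_mod_cast hm
  refine ⟨1 / (100 * m), by positivity, ?_⟩
  intro α hα A hfreq
  rw [frequently_atTop]
  intro N
  set C0 : ℝ := (δ / (2 * m)) ^ 2 * exp (-(1 / 2)) / 60 with hC0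
  have hC0pos : 0 < C0 := by positivity
  have hlogX : Tendsto (fun X : ℕ => log (X : ℝ)) atTop atTop :=
    tendsto_log_atTop.comp tendsto_natCast_atTop_atTop
  have hpsi : Tendsto (fun X : ℕ => log (X : ℝ) / log (log (X : ℝ))) atTop atTop :=
    psi_tendsto.comp hlogX
  have hE1 := hlogX.eventually prime_param
  have hE2 := hlogX.eventually (eventually_ge_atTop (3 : ℝ))
  have hE3 := hpsi.eventually (eventually_ge_atTop (8 * m : ℝ))
  have hE4 := hpsi.eventually (eventually_ge_atTop (100 * m * log (1 / C0) : ℝ))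
  have hE5 := hpsi.eventually (eventually_ge_atTop (100 * m * (N + 18) : ℝ))
  have hE6 : ∀ᶠ X : ℕ in atTop, sqrt (X : ℝ) / α + 1 ≤ δ / 2 * X := by
    have h1 : Tendsto (fun X : ℝ => sqrt X) atTop atTop := tendsto_sqrt_atTop
    have h2 := (h1.comp tendsto_natCast_atTop_atTop).eventually
      (eventually_ge_atTop (max 1 (2 / δ * (1 / α + 1))))
    filter_upwards [h2] with X hX
    simp only [Function.comp] at hX
    have hX1 : 1 ≤ sqrt (X : ℝ) := (le_max_left _ _).trans hX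
    have hX2 : 2 / δ * (1 / α + 1) ≤ sqrt (X : ℝ) := (le_max_right _ _).trans hX
    have hsq : sqrt (X : ℝ) * sqrt X = X := mul_self_sqrt (Nat.cast_nonneg _)
    have h3 : 1 / α + 1 ≤ δ / 2 * sqrt (X : ℝ) := by
      have : 1 / α + 1 = δ / 2 * (2 / δ * (1 / α + 1)) := by field_simp
      rw [this]
      exact mul_le_mul_of_nonneg_left hX2 (by positivity)
    calc sqrt (X : ℝ) / α + 1 ≤ sqrt X * (1 / α + 1) := by
          have : sqrt (X : ℝ) * (1 / α + 1) = sqrt X / α + sqrt X := by ring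
          rw [this]; linarith
      _ ≤ sqrt X * (δ / 2 * sqrt X) := mul_le_mul_of_nonneg_left h3 (by positivity)
      _ = δ / 2 * (sqrt X * sqrt X) := by ring
      _ = δ / 2 * X := by rw [hsq]
  have hE7 : ∀ᶠ X : ℕ in atTop, (2 * α + 2 : ℝ) ≤ X :=
    tendsto_natCast_atTop_atTop.eventually (eventually_ge_atTop _)
  obtain ⟨X, hX, ⟨hE1, hE2, hE3, hE4, hE5, hE6, hE7, hX1⟩⟩ :=
    (hfreq.and_eventually (hE1.and (hE2.and (hE3.and (hE4.and (hE5.and (hE6.and
      (hE7.and (eventually_ge_atTop 1))))))))).exists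
  obtain ⟨y, hy1, hy2, hy3⟩ := hE1
  set L : ℝ := log (X : ℝ) with hL
  set Ψ : ℝ := L / log L with hΨ
  have hXr : (1 : ℝ) ≤ X := by exact_mod_cast hX1
  have hlogL : 1 ≤ log L := by
    rw [le_log_iff_exp_le (by linarith)]
    linarith [exp_one_lt_d9]
  have hΨ0 : 0 < Ψ := by positivity
  have hΨL : Ψ ≤ L := by
    rw [hΨ, div_le_iff₀ (by linarith)]
    nlinarith
  set c : ℝ := 1 / (100 * m) with hc
  have hcpos : 0 < c := by positivity
  have hc1 : c ≤ 1 / 100 := by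
    rw [hc]
    exact one_div_le_one_div_of_le (by norm_num) (by linarith)
  set G : ℝ := exp (c * Ψ) with hG
  have hG1 : 1 ≤ G := one_le_exp (by positivity)
  have hexpL : exp L = X := exp_log (by linarith)
  have hGX : G ≤ sqrt X := by
    refine le_sqrt_of_sq_le ?_
    rw [hG, ← exp_nat_mul, ← hexpL]
    refine exp_le_exp.mpr ?_
    push_cast
    nlinarith
  have hsqX : sqrt (X : ℝ) ≤ X := by
    rw [sqrt_le_left (by linarith)]
    nlinarith
  -- the parameters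
  set w : ℕ := ⌊L / (8 * log L) / m⌋₊ with hw
  have ht : L / (8 * log L) = Ψ / 8 := by rw [hΨ]; field_simp
  have hw0 : 0 < w := by
    rw [hw, Nat.floor_pos, ht, div_div, one_le_div (by positivity)]
    linarith
  have hwle : (w : ℝ) ≤ L / (8 * log L) / m := Nat.floor_le (by positivity)
  have hmw : ((m * w : ℕ) : ℝ) ≤ L / (8 * log L) := by
    push_cast
    calc (m : ℝ) * w ≤ m * (L / (8 * log L) / m) := mul_le_mul_of_nonneg_left hwle hmr.le
      _ = L / (8 * log L) := by field_simp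
  have hmw' : m * w ≤ (S1 y).card := by exact_mod_cast hmw.trans hy2
  have hyX : y ^ (m * w) ≤ X := by
    have h1 := hy3 (m * w) hmw
    have h2 : exp (L / 8) ≤ X := by
      rw [← hexpL]
      exact exp_le_exp.mpr (by linarith)
    exact_mod_cast h1.trans h2
  -- the set
  have hex : ∀ n : ℕ, ∃ a : ℕ, (∃ a ∈ A, |(a : ℝ) - α * n ^ 2| ≤ G) →
      a ∈ A ∧ |(a : ℝ) - α * n ^ 2| ≤ G := by
    intro n
    by_cases h : ∃ a ∈ A, |(a : ℝ) - α * n ^ 2| ≤ G
    · obtain ⟨a, ha⟩ := h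
      exact ⟨a, fun _ => ha⟩
    · exact ⟨0, fun h' => absurd h' h⟩
  choose a ha using hex
  set S0 : Finset ℕ := (Finset.range X).filter (fun n => ∃ a ∈ A, |(a : ℝ) - α * n ^ 2| ≤ G)
    with hS0
  have hS0c : δ * X ≤ (S0.card : ℝ) := by
    refine hX.trans ?_
    rw [← Set.ncard_coe_finset]
    rw [Nat.cast_le]
    refine Set.ncard_le_ncard ?_ (Finset.finite_toSet _)
    rintro n ⟨hn1, hn2⟩
    rw [hS0, Finset.mem_coe, Finset.mem_filter, Finset.mem_range]
    exact ⟨hn1, hn2⟩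
  set n0 : ℕ := ⌈G / α⌉₊ with hn0
  set S : Finset ℕ := S0.filter (fun n => n0 ≤ n) with hS
  have hScard : δ / 2 * X ≤ (S.card : ℝ) := by
    have h1 : S0.card ≤ S.card + n0 := by
      have h2 : S0 ⊆ S ∪ Finset.range n0 := by
        intro n hn
        by_cases h : n0 ≤ n
        · exact Finset.mem_union_left _ (Finset.mem_filter.mpr ⟨hn, h⟩)
        · exact Finset.mem_union_right _ (Finset.mem_range.mpr (by omega))
      refine (Finset.card_le_card h2).trans ((Finset.card_union_le _ _).trans ?_)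
      rw [Finset.card_range]
    have h2 : (S0.card : ℝ) ≤ S.card + n0 := by exact_mod_cast h1
    have h3 : (n0 : ℝ) ≤ G / α + 1 := (Nat.ceil_lt_add_one (by positivity)).le
    have h4 : G / α ≤ sqrt X / α := div_le_div_of_nonneg_right hGX hα.le
    linarith
  have hSprop : ∀ n ∈ S, n < X ∧ (∃ a ∈ A, |(a : ℝ) - α * n ^ 2| ≤ G) ∧ n0 ≤ n := by
    intro n hn
    rw [hS, Finset.mem_filter, hS0, Finset.mem_filter, Finset.mem_range] at hn
    exact ⟨hn.1.1, hn.1.2, hn.2⟩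
  have hinj : Set.InjOn a S := by
    have key : ∀ n ∈ S, ∀ n' ∈ S, n < n' → a n ≠ a n' := by
      intro n hn n' hn' hlt heq
      obtain ⟨_, h1, h2⟩ := hSprop n hn
      obtain ⟨_, h1', h2'⟩ := hSprop n' hn'
      have h3 := abs_le.mp (ha n h1).2
      have h4 := abs_le.mp (ha n' h1').2
      rw [heq] at h3
      have h5 : α * (n' : ℝ) ^ 2 - α * n ^ 2 ≤ 2 * G := by linarith [h3.2, h4.1]
      have h6 : G / α ≤ n := (Nat.le_ceil _).trans (by exact_mod_cast h2)
      have h7 : (n : ℝ) + 1 ≤ n' := by exact_mod_cast hlt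
      have h8 : G ≤ n * α := (div_le_iff₀ hα).mp h6
      have h9 : (n : ℝ) ^ 2 + (2 * n + 1) ≤ (n' : ℝ) ^ 2 := by
        calc (n : ℝ) ^ 2 + (2 * n + 1) = ((n : ℝ) + 1) ^ 2 := by ring
          _ ≤ (n' : ℝ) ^ 2 := pow_le_pow_left₀ (by positivity) h7 2
      have h10 : α * ((n : ℝ) ^ 2 + (2 * n + 1)) ≤ α * (n' : ℝ) ^ 2 :=
        mul_le_mul_of_nonneg_left h9 hα.le
      have h11 : α * ((n : ℝ) ^ 2 + (2 * n + 1)) = α * (n : ℝ) ^ 2 + 2 * (n * α) + α := by ring
      rw [h11] at h10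
      linarith
    intro n hn n' hn' heq
    by_contra hne
    rcases Nat.lt_or_gt_of_ne hne with h | h
    · exact key n hn n' hn' h heq
    · exact key n' hn' n hn h heq.symm
  obtain ⟨s, hs1, hs2⟩ := master A α G hα hG1 hm hw0 hy1 hmw' hyX S
    (fun n hn => (hSprop n hn).1) (by
      calc 4 * (3 / 5 : ℝ) ^ m * X ≤ δ / 2 * X := mul_le_mul_of_nonneg_right hmδ (by linarith)
        _ ≤ S.card := hScard) a hinj
    (fun n hn => (ha n (hSprop n hn).2.1).1) (fun n hn => (ha n (hSprop n hn).2.1).2)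
  -- lower bound
  have hlow : exp (3 * c * Ψ) ≤ rep A s := by
    refine le_trans ?_ hs2
    have h1 : δ / (2 * m) ≤ (S.card : ℝ) / (m * X) := by
      rw [div_le_div_iff₀ (by positivity) (by positivity)]
      calc δ * (m * X) = (δ / 2 * X) * (2 * m) := by ring
        _ ≤ (S.card : ℝ) * (2 * m) := mul_le_mul_of_nonneg_right hScard (by positivity)
    have h2 : exp (Ψ / (16 * m) - 1 / 2) ≤ (5 / 3 : ℝ) ^ w := by
      refine le_trans (exp_le_exp.mpr ?_) (five_thirds w)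
      have h3 : L / (8 * log L) / m - 1 < w := Nat.sub_one_lt_floor _
      rw [ht] at h3
      have h4 : Ψ / 8 / m = 2 * (Ψ / (16 * m)) := by field_simp; norm_num
      rw [h4] at h3
      linarith
    have h3 : (δ / (2 * m)) ^ 2 * exp (Ψ / (16 * m) - 1 / 2) / (60 * G) ≤
        ((S.card : ℝ) / (m * X)) ^ 2 * (5 / 3 : ℝ) ^ w / (60 * G) := by
      refine div_le_div_of_nonneg_right ?_ (by positivity)
      exact mul_le_mul (pow_le_pow_left₀ (by positivity) h1 2) h2 (exp_pos _).le (by positivity)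
    refine le_trans ?_ h3
    have h4 : (δ / (2 * m)) ^ 2 * exp (Ψ / (16 * m) - 1 / 2) / (60 * G) =
        C0 * exp (Ψ / (16 * m) - c * Ψ) := by
      rw [hC0, hG, sub_eq_add_neg, exp_add, sub_eq_add_neg, exp_add (Ψ / (16 * m)) (-(c * Ψ)),
        exp_neg (c * Ψ)]
      field_simp
    rw [h4]
    have h5 : log (1 / C0) ≤ c * Ψ := by
      rw [hc, div_mul_eq_mul_div, one_mul, le_div_iff₀ (by positivity)]
      linarith
    have h6 : 1 ≤ C0 * exp (c * Ψ) := by
      have h7 : 1 / C0 ≤ exp (c * Ψ) := (log_le_iff_le_exp (by positivity)).mp h5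
      rw [div_le_iff₀ hC0pos] at h7
      linarith
    have h7 : 3 * c * Ψ + c * Ψ ≤ Ψ / (16 * m) - c * Ψ := by
      have h8 : Ψ / (16 * m) = (100 / 16) * (c * Ψ) := by rw [hc]; field_simp
      rw [h8]
      have : 0 < c * Ψ := by positivity
      linarith
    calc exp (3 * c * Ψ) ≤ exp (3 * c * Ψ) * (C0 * exp (c * Ψ)) := by
          nlinarith [exp_pos (3 * c * Ψ)]
      _ = C0 * exp (3 * c * Ψ + c * Ψ) := by rw [exp_add]; ring
      _ ≤ C0 * exp (Ψ / (16 * m) - c * Ψ) :=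
        mul_le_mul_of_nonneg_left (exp_le_exp.mpr h7) hC0pos.le
  -- `s` is large
  have hs16 : N + 16 ≤ s := by
    have h1 : (N : ℝ) + 18 ≤ c * Ψ := by
      rw [hc, div_mul_eq_mul_div, one_mul, le_div_iff₀ (by positivity)]
      linarith
    have h2 : c * Ψ + 1 ≤ exp (3 * c * Ψ) := by
      have h3 := add_one_le_exp (3 * c * Ψ)
      have : 0 < c * Ψ := by positivity
      linarith
    have h3 : (rep A s : ℝ) ≤ s + 1 := by exact_mod_cast rep_le A s
    have h4 : ((N + 16 : ℕ) : ℝ) ≤ s := by push_cast; linarith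
    exact_mod_cast h4
  refine ⟨s, by omega, le_trans (exp_le_exp.mpr ?_) hlow⟩
  have hsr : (16 : ℝ) ≤ s := by
    have : 16 ≤ s := by omega
    exact_mod_cast this
  have hs3 : (s : ℝ) ≤ (X : ℝ) ^ 3 := by
    refine hs1.trans ?_
    have h1 : G ≤ X := hGX.trans hsqX
    have h2 : (X : ℝ) ≤ X ^ 2 := by nlinarith
    calc 2 * α * (X : ℝ) ^ 2 + 2 * G ≤ 2 * α * (X : ℝ) ^ 2 + 2 * X ^ 2 := by linarith
      _ = (2 * α + 2) * (X : ℝ) ^ 2 := by ring
      _ ≤ X * (X : ℝ) ^ 2 := mul_le_mul_of_nonneg_right hE7 (by positivity)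
      _ = (X : ℝ) ^ 3 := by ring
  have hlogs : log s ≤ 3 * L := by
    calc log s ≤ log ((X : ℝ) ^ 3) := log_le_log (by linarith) hs3
      _ = 3 * L := by rw [log_pow, ← hL]; norm_num
  have h1 := psi_le (K := 3) (by norm_num) hE2 hsr hlogs
  calc c * (log s / log (log s)) ≤ c * (3 * (L / log L)) := mul_le_mul_of_nonneg_left h1 hcpos.le
    _ = 3 * c * Ψ := by rw [hΨ]; ring

end Pool.Agent.H397R2.NS
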