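import Mathlib
import Pool.Agent.H397R2.NS4

open Finset Filter Topology Real

namespace Pool.Agent.H397R2.NS

open Pool.Agent.H313R2 (S1 mem_S1 S1_card_ge)

open Classical in
/-- A set of integers close to squares gives a set of `n`. -/
lemma extract (A : Set ℕ) (α G x : ℝ) (hα : 0 < α) (hG : 1 ≤ G) (hGx : G ≤ x) (B : Finset ℕ)
    (hB : ∀ a ∈ B, a ∈ A ∧ (a : ℝ) ≤ x ∧ ∃ n : ℕ, |(a : ℝ) - α * n ^ 2| ≤ G) :
    ∃ (S : Finset ℕ) (a : ℕ → ℕ), (∀ n ∈ S, n < ⌊sqrt (2 * x / α)⌋₊ + 1) ∧ Set.InjOn a S ∧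
      (∀ n ∈ S, a n ∈ A) ∧ (∀ n ∈ S, |(a n : ℝ) - α * n ^ 2| ≤ G) ∧
      (B.card : ℝ) ≤ 3 * G * S.card := by
  have hex : ∀ a : ℕ, ∃ n : ℕ, a ∈ B → |(a : ℝ) - α * n ^ 2| ≤ G := by
    intro a
    by_cases h : a ∈ B
    · obtain ⟨n, hn⟩ := (hB a h).2.2
      exact ⟨n, fun _ => hn⟩
    · exact ⟨0, fun h' => absurd h' h⟩
  choose f hf using hex
  have hsec : ∀ n : ℕ, ∃ a : ℕ, n ∈ B.image f → a ∈ B ∧ f a = n := by
    intro n
    by_cases h : n ∈ B.image f
    · rw [Finset.mem_image] at h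
      obtain ⟨a, ha, han⟩ := h
      exact ⟨a, fun _ => ⟨ha, han⟩⟩
    · exact ⟨0, fun h' => absurd h' h⟩
  choose g hg using hsec
  refine ⟨B.image f, g, ?_, ?_, ?_, ?_, ?_⟩
  · intro n hn
    rw [Finset.mem_image] at hn
    obtain ⟨a, ha, rfl⟩ := hn
    have h1 := abs_le.mp (hf a ha)
    have h2 := (hB a ha).2.1
    refine Nat.lt_succ_of_le (Nat.le_floor ?_)
    refine le_sqrt_of_sq_le ?_
    rw [le_div_iff₀ hα]
    linarith [h1.1]
  · intro n hn n' hn' h
    rw [← (hg n hn).2, ← (hg n' hn').2, h]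
  · intro n hn
    exact (hB _ (hg n hn).1).1
  · intro n hn
    have h1 := hf _ (hg n hn).1
    rwa [(hg n hn).2] at h1
  · have h1 : ∀ n ∈ B.image f, (B.filter (fun a => f a = n)).card ≤ ⌊3 * G⌋₊ := by
      intro n _
      have h2 : B.filter (fun a => f a = n) ⊆ Finset.Icc ⌈α * n ^ 2 - G⌉₊ ⌊α * n ^ 2 + G⌋₊ := by
        intro a ha
        rw [Finset.mem_filter] at ha
        have h3 := abs_le.mp (hf a ha.1)
        rw [ha.2] at h3
        rw [Finset.mem_Icc]
        exact ⟨Nat.ceil_le.mpr (by linarith [h3.1]), Nat.le_floor (by linarith [h3.2])⟩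
      refine (Finset.card_le_card h2).trans (Nat.le_floor ?_)
      rw [Nat.card_Icc]
      by_cases hle : ⌈α * (n : ℝ) ^ 2 - G⌉₊ ≤ ⌊α * (n : ℝ) ^ 2 + G⌋₊ + 1
      · rw [Nat.cast_sub hle]
        have h3 := Nat.le_ceil (α * (n : ℝ) ^ 2 - G)
        have h4 : ((⌊α * (n : ℝ) ^ 2 + G⌋₊ : ℕ) : ℝ) ≤ α * n ^ 2 + G :=
          Nat.floor_le (by positivity)
        push_cast
        linarith
      · rw [Nat.sub_eq_zero_of_le (by omega)]
        push_cast
        linarith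
    have h2 := Finset.card_le_mul_card_image B ⌊3 * G⌋₊ h1
    have h3 : (B.card : ℝ) ≤ (⌊3 * G⌋₊ : ℕ) * ((B.image f).card : ℝ) := by exact_mod_cast h2
    refine h3.trans (mul_le_mul_of_nonneg_right (Nat.floor_le (by linarith)) (Nat.cast_nonneg _))


theorem part1 (α : ℝ) (hα : 0 < α) (A : Set ℕ)
    (hfreq : ∃ᶠ x : ℕ in atTop,
      sqrt x * exp (-(1 / 100 * sqrt (log x / log (log x)))) ≤
      ({a : ℕ | a ∈ A ∧ a ≤ x ∧ ∃ n : ℕ, |(a : ℝ) - α * n ^ 2| ≤
        exp (1 / 100 * sqrt (log x / log (log x)))}.ncard : ℝ)) :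
    ∃ᶠ s : ℕ in atTop, exp (1 / 100 * sqrt (log s / log (log s))) ≤ rep A s := by
  classical
  rw [frequently_atTop]
  intro N
  set κ : ℝ := sqrt (α / 2) / 6 with hκ
  have hκ0 : 0 < κ := by positivity
  have hlogX : Tendsto (fun X : ℕ => log (X : ℝ)) atTop atTop :=
    tendsto_log_atTop.comp tendsto_natCast_atTop_atTop
  have hphi : Tendsto (fun X : ℕ => sqrt (log (X : ℝ) / log (log (X : ℝ)))) atTop atTop :=
    tendsto_sqrt_atTop.comp (psi_tendsto.comp hlogX)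
  have hexpo : ∀ᶠ u : ℝ in atTop, u ≤ exp (u / 50) := by
    have h1 := (tendsto_exp_div_pow_atTop 1)
    have h2 : Tendsto (fun u : ℝ => u / 50) atTop atTop :=
      tendsto_id.atTop_div_const (by norm_num)
    filter_upwards [(h1.comp h2).eventually (eventually_ge_atTop 50), eventually_gt_atTop 0]
      with u hu hu0
    simp only [Function.comp, pow_one] at hu
    rw [le_div_iff₀ (by positivity)] at hu
    linarith
  have hE1 := hlogX.eventually prime_param
  have hE2 := hlogX.eventually (eventually_ge_atTop (3 : ℝ))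
  have hE3 := hphi.eventually (eventually_ge_atTop (6 : ℝ))
  have hE4 := hphi.eventually (eventually_ge_atTop (100 * log (10 / κ) : ℝ))
  have hE5 := hphi.eventually (eventually_ge_atTop (50 * (N + 18) : ℝ))
  have hE6 := hphi.eventually hexpo
  have hE7 := hlogX.eventually (eventually_ge_atTop (4 * log (sqrt (α / 2)) : ℝ))
  obtain ⟨x, hx, ⟨hE1, hE2, hE3, hE4, hE5, hE6, hE7, hx18⟩⟩ :=
    (hfreq.and_eventually (hE1.and (hE2.and (hE3.and (hE4.and (hE5.and (hE6.and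
      (hE7.and (eventually_ge_atTop 18))))))))).exists
  obtain ⟨y, hy1, hy2, hy3⟩ := hE1
  set L : ℝ := log (x : ℝ) with hL
  set Ψ : ℝ := L / log L with hΨ
  set Φ : ℝ := sqrt Ψ with hΦ
  have hxr : (18 : ℝ) ≤ x := by exact_mod_cast hx18
  have hlogL : 1 ≤ log L := by
    rw [le_log_iff_exp_le (by linarith)]
    linarith [exp_one_lt_d9]
  have hΨ0 : 0 < Ψ := by positivity
  have hΨL : Ψ ≤ L := by
    rw [hΨ, div_le_iff₀ (by linarith)]
    nlinarith
  have hΦ2 : Φ ^ 2 = Ψ := sq_sqrt hΨ0.le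
  have hΦL : Φ ≤ L := by nlinarith
  set G : ℝ := exp (1 / 100 * Φ) with hG
  have hG1 : 1 ≤ G := one_le_exp (by positivity)
  have hexpL : exp L = x := exp_log (by linarith)
  have hGx : G ≤ x := by
    rw [hG, ← hexpL]
    exact exp_le_exp.mpr (by linarith)
  -- the parameters
  set t : ℝ := L / (8 * log L) with ht
  have htΨ : t = Ψ / 8 := by rw [ht, hΨ]; field_simp
  have ht0 : 0 < t := by rw [htΨ]; positivity
  set m : ℕ := ⌊sqrt t⌋₊ with hm
  have hst1 : Φ / 3 ≤ sqrt t := by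
    refine le_sqrt_of_sq_le ?_
    rw [htΨ, div_pow, hΦ2]
    linarith
  have hst2 : sqrt t ≤ Φ := by
    rw [hΦ]
    refine sqrt_le_sqrt ?_
    rw [htΨ]
    linarith
  have hm0 : 0 < m := by
    rw [hm, Nat.floor_pos]
    linarith
  have hmle : (m : ℝ) ≤ sqrt t := Nat.floor_le (by positivity)
  have hmge : sqrt t - 1 < m := Nat.sub_one_lt_floor _
  have hmr : (0 : ℝ) < m := by exact_mod_cast hm0
  have hmw : ((m * m : ℕ) : ℝ) ≤ t := by
    push_cast
    calc (m : ℝ) * m ≤ sqrt t * sqrt t := mul_le_mul hmle hmle (by positivity) (by positivity)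
      _ = t := mul_self_sqrt ht0.le
  have hmw' : m * m ≤ (S1 y).card := by exact_mod_cast hmw.trans hy2
  have hsx : exp (L / 2) = sqrt x := by
    symm
    rw [sqrt_eq_iff_eq_sq (by positivity) (exp_pos _).le, ← exp_nat_mul, ← hexpL]
    congr 1
    push_cast
    ring
  have hsplit : sqrt (2 * x / α) = sqrt x / sqrt (α / 2) := by
    rw [← sqrt_div' _ (by positivity)]
    congr 1
    field_simp
  have hsa0 : 0 < sqrt (α / 2) := by positivity
  have hbig : exp (L / 8) ≤ sqrt (2 * x / α) := by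
    rw [hsplit, le_div_iff₀ hsa0, ← hsx]
    have h1 : sqrt (α / 2) ≤ exp (L / 4) := by
      rw [← log_le_iff_le_exp hsa0]
      linarith
    calc exp (L / 8) * sqrt (α / 2) ≤ exp (L / 8) * exp (L / 4) :=
          mul_le_mul_of_nonneg_left h1 (exp_pos _).le
      _ = exp (L / 8 + L / 4) := by rw [exp_add]
      _ ≤ exp (L / 2) := exp_le_exp.mpr (by linarith)
  set X : ℕ := ⌊sqrt (2 * x / α)⌋₊ + 1 with hX
  have hXge : sqrt (2 * x / α) ≤ X := by
    rw [hX]
    push_cast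
    exact (Nat.lt_floor_add_one _).le
  have hyX : y ^ (m * m) ≤ X := by
    have h1 := hy3 (m * m) hmw
    exact_mod_cast (h1.trans hbig).trans hXge
  have hX0 : (0 : ℝ) < X := lt_of_lt_of_le (exp_pos _) (hbig.trans hXge)
  have hXle : (X : ℝ) ≤ 2 * sqrt (2 * x / α) := by
    have h1 : ((⌊sqrt (2 * x / α)⌋₊ : ℕ) : ℝ) ≤ sqrt (2 * x / α) := Nat.floor_le (by positivity)
    have h2 : 1 ≤ exp (L / 8) := one_le_exp (by positivity)
    rw [hX]
    push_cast
    linarith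
  -- the sets
  have hfin : {a : ℕ | a ∈ A ∧ a ≤ x ∧ ∃ n : ℕ, |(a : ℝ) - α * n ^ 2| ≤ G}.Finite := by
    refine (Set.finite_Iic x).subset ?_
    rintro a ⟨_, h, _⟩
    exact h
  obtain ⟨S, a, hS1, hinj, hS2, hS3, hS4⟩ := extract A α G x hα hG1 hGx hfin.toFinset (by
    intro a ha
    rw [Set.Finite.mem_toFinset] at ha
    exact ⟨ha.1, by exact_mod_cast ha.2.1, ha.2.2⟩)
  have hBcard : sqrt x * exp (-(1 / 100 * Φ)) ≤ (hfin.toFinset.card : ℝ) := by
    rw [← Set.ncard_eq_toFinset_card _ hfin]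
    exact hx
  have hGinv : exp (-(1 / 100 * Φ)) = G⁻¹ := by rw [hG, exp_neg]
  have hG2 : G ^ 2 = exp (Φ / 50) := by
    rw [hG, ← exp_nat_mul]
    congr 1
    push_cast
    ring
  have hScard : κ * exp (-(Φ / 50)) * X ≤ (S.card : ℝ) := by
    have h1 : sqrt x * G⁻¹ ≤ 3 * G * S.card := by
      rw [← hGinv]
      exact hBcard.trans hS4
    have h2 : sqrt x ≤ 3 * G ^ 2 * S.card := by
      have h3 : sqrt x = sqrt x * G⁻¹ * G := by field_simp
      rw [h3]
      calc sqrt x * G⁻¹ * G ≤ 3 * G * S.card * G := mul_le_mul_of_nonneg_right h1 (by positivity)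
        _ = 3 * G ^ 2 * S.card := by ring
    have h3 : (X : ℝ) * sqrt (α / 2) ≤ 2 * sqrt x := by
      rw [hsplit] at hXle
      calc (X : ℝ) * sqrt (α / 2) ≤ 2 * (sqrt x / sqrt (α / 2)) * sqrt (α / 2) :=
            mul_le_mul_of_nonneg_right hXle hsa0.le
        _ = 2 * sqrt x := by field_simp
    have h4 : (X : ℝ) * κ ≤ exp (Φ / 50) * S.card := by
      rw [hκ, ← hG2]
      linarith
    rw [exp_neg]
    have h5 : 0 < exp (Φ / 50) := exp_pos _
    calc κ * (exp (Φ / 50))⁻¹ * X = (exp (Φ / 50))⁻¹ * (X * κ) := by ring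
      _ ≤ (exp (Φ / 50))⁻¹ * (exp (Φ / 50) * S.card) :=
        mul_le_mul_of_nonneg_left h4 (by positivity)
      _ = S.card := by field_simp
  have h10 : 10 / κ ≤ exp (Φ / 100) := by
    rw [← log_le_iff_le_exp (by positivity)]
    linarith
  have hexp12 : exp (1 / 2 : ℝ) ≤ 5 / 3 := by
    have := five_thirds 1
    simpa using this
  have hcond : 4 * (3 / 5 : ℝ) ^ m ≤ κ * exp (-(Φ / 50)) := by
    have h1 : (3 / 5 : ℝ) ^ m ≤ exp (1 / 2 - Φ / 6) := by
      refine (three_fifths m).trans (exp_le_exp.mpr ?_)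
      linarith
    have h2 : exp (1 / 2 - Φ / 6) ≤ 5 / 3 * exp (-(Φ / 6)) := by
      rw [sub_eq_add_neg, exp_add]
      exact mul_le_mul_of_nonneg_right hexp12 (exp_pos _).le
    have h3 : 10 ≤ κ * exp (Φ / 100) := by
      rw [div_le_iff₀ hκ0] at h10
      linarith
    calc 4 * (3 / 5 : ℝ) ^ m ≤ 10 * exp (-(Φ / 6)) := by
          have := exp_pos (-(Φ / 6))
          linarith
      _ ≤ κ * exp (Φ / 100) * exp (-(Φ / 6)) := mul_le_mul_of_nonneg_right h3 (exp_pos _).le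
      _ = κ * exp (Φ / 100 + -(Φ / 6)) := by rw [exp_add]; ring
      _ ≤ κ * exp (-(Φ / 50)) := by
        refine mul_le_mul_of_nonneg_left (exp_le_exp.mpr ?_) hκ0.le
        linarith
  obtain ⟨s, hs1, hs2⟩ := master A α G hα hG1 hm0 hm0 hy1 hmw' hyX S hS1
    (le_trans (mul_le_mul_of_nonneg_right hcond hX0.le) hScard) a hinj hS2 hS3
  have hΦ0 : 0 < Φ := by linarith
  have hlow : exp (Φ / 50) ≤ rep A s := by
    refine le_trans ?_ hs2
    have h1 : κ * exp (-(Φ / 50)) / Φ ≤ (S.card : ℝ) / (m * X) := by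
      rw [div_le_div_iff₀ hΦ0 (by positivity)]
      calc κ * exp (-(Φ / 50)) * (m * X) = (κ * exp (-(Φ / 50)) * X) * m := by ring
        _ ≤ S.card * m := mul_le_mul_of_nonneg_right hScard hmr.le
        _ ≤ S.card * Φ := mul_le_mul_of_nonneg_left (hmle.trans hst2) (Nat.cast_nonneg _)
    have h2 : exp (Φ / 6 - 1 / 2) ≤ (5 / 3 : ℝ) ^ m := by
      refine le_trans (exp_le_exp.mpr ?_) (five_thirds m)
      linarith
    have h3 : (κ * exp (-(Φ / 50)) / Φ) ^ 2 * exp (Φ / 6 - 1 / 2) / (60 * G) ≤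
        ((S.card : ℝ) / (m * X)) ^ 2 * (5 / 3 : ℝ) ^ m / (60 * G) := by
      refine div_le_div_of_nonneg_right ?_ (by positivity)
      exact mul_le_mul (pow_le_pow_left₀ (by positivity) h1 2) h2 (exp_pos _).le (by positivity)
    refine le_trans ?_ h3
    have h4 : exp (Φ / 6) * (3 / 5) ≤ exp (Φ / 6 - 1 / 2) := by
      rw [sub_eq_add_neg, exp_add, exp_neg (1 / 2)]
      refine mul_le_mul_of_nonneg_left ?_ (exp_pos _).le
      rw [show (3 / 5 : ℝ) = (5 / 3)⁻¹ by norm_num]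
      exact inv_anti₀ (exp_pos _) hexp12
    have h5 : 100 ≤ κ ^ 2 * exp (Φ / 50) := by
      have h6 : 10 ≤ κ * exp (Φ / 100) := by
        rw [div_le_iff₀ hκ0] at h10
        linarith
      have h7 : exp (Φ / 50) = exp (Φ / 100) ^ 2 := by
        rw [← exp_nat_mul]
        congr 1
        push_cast
        ring
      rw [h7, ← mul_pow]
      calc (100 : ℝ) = 10 ^ 2 := by norm_num
        _ ≤ (κ * exp (Φ / 100)) ^ 2 := pow_le_pow_left₀ (by norm_num) h6 2
    have h8 : Φ ^ 2 ≤ exp (Φ / 25) := by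
      calc Φ ^ 2 ≤ exp (Φ / 50) ^ 2 := pow_le_pow_left₀ hΦ0.le hE6 2
        _ = exp (Φ / 25) := by
          rw [← exp_nat_mul]
          congr 1
          push_cast
          ring
    rw [le_div_iff₀ (by positivity), div_pow, div_mul_eq_mul_div, le_div_iff₀ (by positivity)]
    have h9 : (κ * exp (-(Φ / 50))) ^ 2 = κ ^ 2 * exp (-(Φ / 25)) := by
      rw [mul_pow, ← exp_nat_mul]
      congr 2
      push_cast
      ring
    rw [h9]
    calc exp (Φ / 50) * (60 * G) * Φ ^ 2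
        ≤ exp (Φ / 50) * (60 * G) * exp (Φ / 25) :=
          mul_le_mul_of_nonneg_left h8 (by positivity)
      _ = 60 * exp (Φ / 50 + 1 / 100 * Φ + Φ / 25) := by
          rw [hG, exp_add, exp_add]; ring
      _ = 100 * (3 / 5) * exp (Φ / 50 + 1 / 100 * Φ + Φ / 25) := by ring
      _ ≤ (κ ^ 2 * exp (Φ / 50)) * (3 / 5) * exp (Φ / 50 + 1 / 100 * Φ + Φ / 25) := by
          refine mul_le_mul_of_nonneg_right ?_ (exp_pos _).le
          linarith
      _ = κ ^ 2 * (3 / 5) * exp (Φ / 50 + (Φ / 50 + 1 / 100 * Φ + Φ / 25)) := by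
          rw [exp_add (Φ / 50) (Φ / 50 + 1 / 100 * Φ + Φ / 25)]; ring
      _ ≤ κ ^ 2 * (3 / 5) * exp (-(Φ / 25) + Φ / 6) := by
          refine mul_le_mul_of_nonneg_left (exp_le_exp.mpr ?_) (by positivity)
          linarith
      _ = κ ^ 2 * exp (-(Φ / 25)) * (exp (Φ / 6) * (3 / 5)) := by rw [exp_add]; ring
      _ ≤ κ ^ 2 * exp (-(Φ / 25)) * exp (Φ / 6 - 1 / 2) :=
          mul_le_mul_of_nonneg_left h4 (by positivity)
  -- `s` is large
  have hs16 : N + 16 ≤ s := by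
    have h2 : Φ / 50 + 1 ≤ exp (Φ / 50) := add_one_le_exp _
    have h3 : (rep A s : ℝ) ≤ s + 1 := by exact_mod_cast rep_le A s
    have h4 : ((N + 16 : ℕ) : ℝ) ≤ s := by push_cast; linarith
    exact_mod_cast h4
  refine ⟨s, by omega, le_trans (exp_le_exp.mpr ?_) hlow⟩
  have hsr : (16 : ℝ) ≤ s := by
    have : 16 ≤ s := by omega
    exact_mod_cast this
  have hs3 : (s : ℝ) ≤ (x : ℝ) ^ 2 := by
    refine hs1.trans ?_
    have h1 : (X : ℝ) ^ 2 ≤ 4 * (2 * x / α) := by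
      calc (X : ℝ) ^ 2 ≤ (2 * sqrt (2 * x / α)) ^ 2 := pow_le_pow_left₀ hX0.le hXle 2
        _ = 4 * (sqrt (2 * x / α)) ^ 2 := by ring
        _ = 4 * (2 * x / α) := by rw [sq_sqrt (by positivity)]
    calc 2 * α * (X : ℝ) ^ 2 + 2 * G ≤ 2 * α * (4 * (2 * x / α)) + 2 * x := by
          have := mul_le_mul_of_nonneg_left h1 (by positivity : 0 ≤ 2 * α)
          linarith
      _ = 18 * x := by field_simp; ring
      _ ≤ (x : ℝ) ^ 2 := by nlinarith
  have hlogs : log s ≤ 2 * L := by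
    calc log s ≤ log ((x : ℝ) ^ 2) := log_le_log (by linarith) hs3
      _ = 2 * L := by rw [log_pow, ← hL]; norm_num
  have h1 := psi_le (K := 2) (by norm_num) hE2 hsr hlogs
  have h2 : sqrt (log s / log (log s)) ≤ 2 * Φ := by
    rw [sqrt_le_left (by positivity), mul_pow, hΦ2]
    refine h1.trans ?_
    rw [← hΨ]
    linarith
  linarith

end Pool.Agent.H397R2.NS
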